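import Pool.Agent.Helper72_TOR.Fin
import Pool.Agent.Helper79_TOR.T2f

/-! The second half of S01763. -/

set_option autoImplicit false

namespace Pool.Agent.TOR.H72

open Pool.Agent.TOR Pool.Agent.TOR.H57 Pool.Agent.TOR.H24

theorem nilT_final (i : ℕ) : ∃ N₀, ∀ n ≥ N₀, NilT i n :=
  nilT (fun q => nuc_of_T2L Pool.Agent.TST.t2l_final q) i

/-- part (b) of S01763, no hypotheses -/
theorem partB_final (i : ℕ) : ∃ N₀, ∀ n ≥ N₀, PartB i n := by
  obtain ⟨N₀, h⟩ := nilT_final i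
  exact ⟨max N₀ 3, fun n hn => partB_of i n (le_trans (le_max_right _ _) hn)
    (h n (le_trans (le_max_left _ _) hn))⟩


end Pool.Agent.TOR.H72
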