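import Pool.Agent.Helper72_TOR.Zh

/-! The zero map theorem for a chain of subgroups of one group. -/

set_option autoImplicit false

namespace Pool.Agent.TOR.H72

open CategoryTheory CategoryTheory.Limits Finsupp Rep Pool.Agent.TOR Pool.Agent.TOR.H58

universe u

section subs

variable {k G : Type u} [CommRing k] [Group G]

/-- restriction of coefficients to a subgroup -/
noncomputable abbrev rs (A : Rep.{u} k G) (S : Subgroup G) : Rep.{u} k S := res S.subtype A

/-- the map on homology induced by an inclusion of subgroups -/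
noncomputable def up (A : Rep.{u} k G) {S' S : Subgroup G} (h : S' ≤ S) (i : ℕ) :
    groupHomology (rs A S') i →ₗ[k] groupHomology (rs A S) i :=
  gI (A := rs A S') (B := rs A S) (Subgroup.inclusion h) (𝟙 (rs A S')) i

theorem up_up (A : Rep.{u} k G) {S₁ S₂ S₃ : Subgroup G} (h₁ : S₁ ≤ S₂) (h₂ : S₂ ≤ S₃) (i : ℕ)
    (x : groupHomology (rs A S₁) i) : up A h₂ i (up A h₁ i x) = up A (h₁.trans h₂) i x :=
  gI_comp (A := rs A S₁) (B := rs A S₂) (C := rs A S₃) (Subgroup.inclusion h₁)
    (Subgroup.inclusion h₂) (𝟙 (rs A S₁)) (𝟙 (rs A S₂)) (𝟙 (rs A S₁)) (fun _ => rfl) i x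

theorem gI_id (A : Rep.{u} k G) (i : ℕ) (x : groupHomology A i) :
    gI (A := A) (B := A) (MonoidHom.id G) (𝟙 A) i x = x := by
  have h := groupHomology.map_id (A := A) (n := i)
  have h2 := congrArg (fun φ => φ.hom x) h
  exact h2

theorem up_self (A : Rep.{u} k G) {S : Subgroup G} (h : S ≤ S) (i : ℕ)
    (x : groupHomology (rs A S) i) : up A h i x = x := gI_id (rs A S) i x

end subs

section chars

variable {Γ : Type} [Group Γ]

/-- identity map, first direction -/
noncomputable def fw (R : Type) [CommRing R] (u : Γ →* R) {S' S : Subgroup Γ} (h : S' ≤ S) :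
    rs (chRep R u) S' ⟶ res (MonoidHom.id S') (chRep R ((u.comp S.subtype).comp
      (Subgroup.inclusion h))) :=
  ofHom ⟨LinearMap.id, fun _ => rfl⟩

/-- identity map, second direction -/
noncomputable def bw (R : Type) [CommRing R] (u : Γ →* R) (S : Subgroup Γ) :
    chRep R (u.comp S.subtype) ⟶ res (MonoidHom.id S) (rs (chRep R u) S) :=
  ofHom ⟨LinearMap.id, fun _ => rfl⟩

theorem up_eq (R : Type) [CommRing R] (u : Γ →* R) {S' S : Subgroup Γ} (h : S' ≤ S) (i : ℕ)
    (x : groupHomology (rs (chRep R u) S') i) :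
    up (chRep R u) h i x = gI (MonoidHom.id S) (bw R u S) i
      (gI (Subgroup.inclusion h) (jm R (Subgroup.inclusion h) (u.comp S.subtype)) i
        (gI (MonoidHom.id S') (fw R u h) i x)) := by
  rw [gI_comp (MonoidHom.id S') (Subgroup.inclusion h) (fw R u h)
    (jm R (Subgroup.inclusion h) (u.comp S.subtype))
    (ofHom ⟨LinearMap.id, fun _ => rfl⟩ : rs (chRep R u) S' ⟶
      res ((Subgroup.inclusion h).comp (MonoidHom.id S')) (chRep R (u.comp S.subtype)))
    (fun _ => rfl)]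
  rw [gI_comp ((Subgroup.inclusion h).comp (MonoidHom.id S')) (MonoidHom.id S) _ (bw R u S)
    (𝟙 (rs (chRep R u) S')) (fun _ => rfl)]
  rfl

end chars

section main

variable {G' G : Type} [Group G'] [Group G]

/-- THE ZERO MAP THEOREM for a pair j : G' → G over ℤ. If the image in H_i(N; ℚ) of every class
of H_i(N'; ℚ) is killed by an element of M (T acting as conjugation by j t), then the map on
H_i( ; R_χ) is zero. -/
theorem zero_cyc (j : G' →* G) (N' : Subgroup G') (N : Subgroup G) [N.Normal] (ν : N' →* N)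
    (hν : ∀ x : N', ((ν x : N) : G) = j (x : G')) (deg : G →* Multiplicative ℤ)
    (hker' : ∀ g : G', deg (j g) = 1 ↔ g ∈ N') (hker : ∀ g : G, deg g = 1 ↔ g ∈ N)
    (t : G') (ht : deg (j t) = Multiplicative.ofAdd 1)
    (R : Type) [CommRing R] [Algebra (MonoidAlgebra ℚ (Multiplicative ℤ)) R]
    (M : Submonoid (MonoidAlgebra ℚ (Multiplicative ℤ))) [IsLocalization M R]
    (hM : M ≤ nonZeroDivisors (MonoidAlgebra ℚ (Multiplicative ℤ))) (i : ℕ)
    (hyp : ∀ x : groupHomology (Rep.trivial ℚ N' ℚ) i, ∃ p ∈ M,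
      MonoidAlgebra.lift ℚ (Module.End ℚ (groupHomology (Rep.trivial ℚ N ℚ) i))
        (Multiplicative ℤ) ((cR N i).comp (zpowersHom G (j t))) p (hn ν i x) = 0)
    (y : groupHomology (chRep R (((algebraMap (MonoidAlgebra ℚ (Multiplicative ℤ)) R :
      MonoidAlgebra ℚ (Multiplicative ℤ) →* R).comp (uL deg⁻¹)).comp j)) i) :
    gI j (jm R j ((algebraMap (MonoidAlgebra ℚ (Multiplicative ℤ)) R :
      MonoidAlgebra ℚ (Multiplicative ℤ) →* R).comp (uL deg⁻¹))) i y = 0 := by
  refine zero_jm (N := N') (N' := N) N'.subtype N'.subtype_injective N.subtype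
    N.subtype_injective deg⁻¹ j ?_ ?_ ν (fun x => hν x)
    (fun m => t ^ (-Multiplicative.toAdd m)) ?_
    (fun m => cN N ((j t) ^ (Multiplicative.toAdd m))) ?_ R M hM i ?_ y
  · intro g
    rw [MonoidHom.inv_apply, inv_eq_one, hker']
    simp
  · intro g
    rw [MonoidHom.inv_apply, inv_eq_one, hker]
    simp
  · intro m
    rw [MonoidHom.inv_apply, map_zpow, map_zpow, ht, ← ofAdd_zsmul, ← ofAdd_neg]
    simp
  · intro m x
    change ((cN N ((j t) ^ (Multiplicative.toAdd m)) x : N) : G) =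
      (j (t ^ (-Multiplicative.toAdd m)))⁻¹ * (x : G) * j (t ^ (-Multiplicative.toAdd m))
    rw [cN_coe, map_zpow, zpow_neg, inv_inv]
  · intro x
    obtain ⟨p, hp, h⟩ := hyp x
    refine ⟨p, hp, ?_⟩
    rw [← h, MonoidAlgebra.lift_apply, Finsupp.sum, Finsupp.sum, LinearMap.sum_apply]
    refine Finset.sum_congr rfl fun m _ => ?_
    rw [LinearMap.smul_apply]
    rfl

theorem TT_pow_eval (N : Subgroup G) [N.Normal] (i : ℕ) (t : G) (a : ℕ)
    (x : groupHomology (Rep.trivial ℚ N ℚ) i) :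
    MonoidAlgebra.lift ℚ (Module.End ℚ (groupHomology (Rep.trivial ℚ N ℚ) i))
        (Multiplicative ℤ) ((cR N i).comp (zpowersHom G t)) ((TT - 1) ^ a) x =
      ((cR N i t - 1) ^ a) x := by
  simp [TT, MonoidAlgebra.lift_single]

/-- the same for subgroups S' ≤ S of one group Γ -/
theorem zero_up {Γ : Type} [Group Γ] {S' S : Subgroup Γ} (hS : S' ≤ S) (N' : Subgroup S')
    (N : Subgroup S) [N.Normal] (ν : N' →* N)
    (hν : ∀ x : N', (((ν x : N) : S) : Γ) = ((x : S') : Γ)) (deg : Γ →* Multiplicative ℤ)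
    (hker' : ∀ g : S', deg g = 1 ↔ g ∈ N') (hker : ∀ g : S, deg g = 1 ↔ g ∈ N)
    (t : S') (ht : deg t = Multiplicative.ofAdd 1)
    (R : Type) [CommRing R] [Algebra (MonoidAlgebra ℚ (Multiplicative ℤ)) R]
    (M : Submonoid (MonoidAlgebra ℚ (Multiplicative ℤ))) [IsLocalization M R]
    (hM : M ≤ nonZeroDivisors (MonoidAlgebra ℚ (Multiplicative ℤ))) (i : ℕ)
    (hyp : ∀ x : groupHomology (Rep.trivial ℚ N' ℚ) i, ∃ p ∈ M,
      MonoidAlgebra.lift ℚ (Module.End ℚ (groupHomology (Rep.trivial ℚ N ℚ) i))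
        (Multiplicative ℤ) ((cR N i).comp (zpowersHom S (Subgroup.inclusion hS t))) p
          (hn ν i x) = 0)
    (y : groupHomology (rs (chRep R ((algebraMap (MonoidAlgebra ℚ (Multiplicative ℤ)) R :
      MonoidAlgebra ℚ (Multiplicative ℤ) →* R).comp (uL deg⁻¹))) S') i) :
    up (chRep R ((algebraMap (MonoidAlgebra ℚ (Multiplicative ℤ)) R :
      MonoidAlgebra ℚ (Multiplicative ℤ) →* R).comp (uL deg⁻¹))) hS i y = 0 := by
  rw [up_eq]
  have h := zero_cyc (Subgroup.inclusion hS) N' N ν (fun x => Subtype.ext (hν x))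
    (deg.comp S.subtype) hker' hker t ht R M hM i hyp
    (gI (MonoidHom.id S') (fw R ((algebraMap (MonoidAlgebra ℚ (Multiplicative ℤ)) R :
      MonoidAlgebra ℚ (Multiplicative ℤ) →* R).comp (uL deg⁻¹)) hS) i y)
  refine (congrArg _ h).trans ?_
  exact map_zero _

end main

end Pool.Agent.TOR.H72
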