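import Pool.Agent.Helper41_TOR.Tm
import Pool.Agent.Helper58_TOR.Tup

/-! Chains of Γ with coefficients in the group algebra of U = Γ/N are homotopic to chains of N. -/

set_option autoImplicit false

namespace Pool.Agent.TOR.H72

open Finsupp Pool.Agent.TOR Pool.Agent.TOR.H58

section lists

variable {V M : Type*} [AddCommGroup M]

theorem mp_mp (φ ψ : V → V) (c : List V →₀ M) : mp φ (mp ψ c) = mp (φ ∘ ψ) c := by
  induction c using Finsupp.induction_linear with
  | zero => simp
  | add f g hf hg => simp only [map_add, hf, hg]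
  | single l m => rw [mp_single, mp_single, mp_single, List.map_map]

theorem pr_mp (φ ψ : V → V) (h : ∀ x, φ (ψ x) = ψ (φ x)) (c : List V →₀ M) :
    pr φ (mp ψ c) = mp ψ (pr φ c) := by
  induction c using Finsupp.induction_linear with
  | zero => simp
  | add f g hf hg => simp only [map_add, hf, hg]
  | single l m =>
    induction l with
    | nil => simp [mp_single, pr_single, pr1_nil]
    | cons v l ih =>
      rw [← cns_single, mp_cns, pr_cns, pr_cns, map_sub, mp_cns, mp_cns, mp_cns, ih, h, mp_mp,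
        mp_mp]
      have : φ ∘ ψ = ψ ∘ φ := funext h
      rw [this]

end lists

variable {N Γ U : Type} [Group N] [Group Γ] [CommGroup U]

/-- quotients of consecutive entries -/
def quo {n : ℕ} (f : Fin (n + 1) → Γ) : Fin n → Γ := fun i => (f i.castSucc)⁻¹ * f i.succ

/-- the chain attached to a tuple -/
noncomputable def Bf (deg : Γ →* U) {n : ℕ} (f : Fin (n + 1) → Γ) (q : ℚ) :
    (Fin n → Γ) →₀ MonoidAlgebra ℚ U :=
  single (quo f) (MonoidAlgebra.single (deg (f 0))⁻¹ q)

theorem quo_contract {n : ℕ} (f : Fin (n + 2) → Γ) (j : Fin (n + 1)) :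
    Fin.contractNth j (· * ·) (quo f) = quo (fun i => f (j.succ.succAbove i)) := by
  funext k
  rcases lt_trichotomy (k : ℕ) j with h | h | h
  · rw [Fin.contractNth_apply_of_lt _ _ _ _ h]
    unfold quo
    congr 3
    · simp only [Fin.succAbove, Fin.lt_def, Fin.ext_iff]
      split_ifs
      all_goals simp_all
      omega
    · simp only [Fin.succAbove, Fin.lt_def, Fin.ext_iff]
      split_ifs
      all_goals simp_all
  · rw [Fin.contractNth_apply_of_eq _ _ _ _ h]
    unfold quo
    have e1 : (f (k.castSucc).castSucc)⁻¹ * f (k.castSucc).succ * ((f (k.succ).castSucc)⁻¹ *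
      f (k.succ).succ) = (f (k.castSucc).castSucc)⁻¹ * f (k.succ).succ := by
      have : (k.castSucc).succ = (k.succ).castSucc := by ext; simp
      rw [this]; group
    rw [e1]
    congr 3
    · simp only [Fin.succAbove, Fin.lt_def, Fin.ext_iff]
      split_ifs
      all_goals simp_all
    · simp only [Fin.succAbove, Fin.lt_def, Fin.ext_iff]
      split_ifs
      all_goals simp_all
  · rw [Fin.contractNth_apply_of_gt _ _ _ _ h]
    unfold quo
    congr 3
    · simp only [Fin.succAbove, Fin.lt_def, Fin.ext_iff]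
      split_ifs
      all_goals simp_all
      omega
    · simp only [Fin.succAbove, Fin.lt_def, Fin.ext_iff]
      split_ifs
      all_goals simp_all
      omega

theorem dch_Bf (deg : Γ →* U) {n : ℕ} (f : Fin (n + 2) → Γ) (q : ℚ) :
    dch (MonoidAlgebra ℚ U) (uL deg) n (Bf deg f q) =
      ∑ i : Fin (n + 2), (-1 : ℤ) ^ (i : ℕ) • Bf deg (fun k => f (i.succAbove k)) q := by
  rw [Fin.sum_univ_succ (fun i : Fin (n + 2) => (-1 : ℤ) ^ (i : ℕ) •
    Bf deg (fun k => f (i.succAbove k)) q)]
  unfold Bf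
  rw [dch_single]
  congr 1
  · rw [uL_apply, MonoidAlgebra.single_mul_single, one_mul]
    simp only [Fin.val_zero, pow_zero, one_smul]
    congr 1
    congr 1
    change (deg ((f (Fin.castSucc 0))⁻¹ * f (Fin.succ 0))⁻¹) * (deg (f 0))⁻¹ = _
    rw [← map_inv, ← map_mul, ← map_inv]
    congr 1
    simp
  · refine Finset.sum_congr rfl fun j _ => ?_
    rw [quo_contract]
    have h0 : f (j.succ.succAbove 0) = f 0 := by
      congr 1
    beta_reduce
    rw [h0, Fin.val_succ]
    rcases Nat.even_or_odd ((j : ℕ) + 1) with h | h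
    · rw [h.neg_one_pow, h.neg_one_pow, one_smul, one_smul]
    · rw [h.neg_one_pow, h.neg_one_pow, neg_one_smul, neg_one_smul]

theorem Bf_mul (deg : Γ →* U) {n : ℕ} (γ : Γ) (hγ : deg γ = 1) (f : Fin (n + 1) → Γ) (q : ℚ) :
    Bf deg (fun i => γ * f i) q = Bf deg f q := by
  unfold Bf
  rw [map_mul, hγ, one_mul]
  congr 1
  funext i
  unfold quo
  group

/-- the chain attached to a tuple, as a homomorphism -/
noncomputable def BfH (deg : Γ →* U) {n : ℕ} (f : Fin (n + 1) → Γ) :
    ℚ →+ ((Fin n → Γ) →₀ MonoidAlgebra ℚ U) :=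
  AddMonoidHom.mk' (fun q => Bf deg f q) fun a b => by
    simp [Bf, Finsupp.single_add, MonoidAlgebra.single_add]

theorem BfH_apply (deg : Γ →* U) {n : ℕ} (f : Fin (n + 1) → Γ) (q : ℚ) :
    BfH deg f q = Bf deg f q := rfl

/-- the chain attached to a list with n+1 entries -/
noncomputable def BL (deg : Γ →* U) (n : ℕ) :
    (List Γ →₀ ℚ) →+ ((Fin n → Γ) →₀ MonoidAlgebra ℚ U) :=
  Finsupp.liftAddHom fun l => if h : l.length = n + 1 then
    BfH deg (fun i : Fin (n + 1) => l.get (Fin.cast h.symm i)) else 0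

theorem BL_ofFn (deg : Γ →* U) (n : ℕ) (f : Fin (n + 1) → Γ) (q : ℚ) :
    BL deg n (single (List.ofFn f) q) = Bf deg f q := by
  unfold BL
  rw [Finsupp.liftAddHom_apply_single, dif_pos (by simp), BfH_apply]
  congr 1
  funext i
  rw [List.get_ofFn]
  rfl

theorem exists_ofFn {V : Type*} (n : ℕ) (l : List V) (h : l.length = n) :
    ∃ f : Fin n → V, List.ofFn f = l := by
  subst h
  exact ⟨l.get, List.ofFn_get l⟩

/-- induction over chains of lists of given length -/
theorem sup_ind {V : Type*} {n : ℕ} {P : (List V →₀ ℚ) → Prop} (h0 : P 0)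
    (ha : ∀ a b, P a → P b → P (a + b))
    (hs : ∀ (f : Fin n → V) (q : ℚ), P (single (List.ofFn f) q)) (c : List V →₀ ℚ)
    (hc : c ∈ Sup ℚ fun l => l.length = n) : P c := by
  rw [← Finsupp.sum_single c, Finsupp.sum]
  refine Finset.sum_induction _ P ha h0 fun l hl => ?_
  obtain ⟨f, rfl⟩ := exists_ofFn n l (hc l (Finsupp.mem_support_iff.1 hl))
  exact hs f _

theorem dch_BL (deg : Γ →* U) (n : ℕ) (c : List Γ →₀ ℚ)
    (hc : c ∈ Sup ℚ fun l => l.length = n + 2) :
    dch (MonoidAlgebra ℚ U) (uL deg) n (BL deg (n + 1) c) = BL deg n (bd c) := by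
  refine sup_ind (P := fun c => dch (MonoidAlgebra ℚ U) (uL deg) n (BL deg (n + 1) c) =
    BL deg n (bd c)) (by simp) (fun a b h1 h2 => by simp only [map_add, h1, h2]) ?_ c hc
  intro f q
  rw [BL_ofFn, dch_Bf, bd_single, bd1_ofFn, map_sum]
  refine Finset.sum_congr rfl fun i _ => ?_
  rw [map_zsmul, BL_ofFn]

theorem BL_mul (deg : Γ →* U) (n : ℕ) (γ : Γ) (hγ : deg γ = 1) (c : List Γ →₀ ℚ)
    (hc : c ∈ Sup ℚ fun l => l.length = n + 1) :
    BL deg n (mp (fun x => γ * x) c) = BL deg n c := by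
  refine sup_ind (P := fun c => BL deg n (mp (fun x => γ * x) c) = BL deg n c) (by simp)
    (fun a b h1 h2 => by simp only [map_add, h1, h2]) ?_ c hc
  intro f q
  rw [mp_single, List.map_ofFn, BL_ofFn, BL_ofFn]
  exact Bf_mul deg γ hγ f q

/-- standard tuple with given quotients and degree -/
def fl (s : U → Γ) {n : ℕ} (g : Fin n → Γ) (m : U) : Fin (n + 1) → Γ :=
  fun i => (s m)⁻¹ * Fin.partialProd g i

omit [CommGroup U] in
theorem quo_fl (s : U → Γ) {n : ℕ} (g : Fin n → Γ) (m : U) : quo (fl s g m) = g := by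
  funext i
  unfold quo fl
  rw [Fin.partialProd_succ]
  group

omit [CommGroup U] in
theorem fl_zero (s : U → Γ) {n : ℕ} (g : Fin n → Γ) (m : U) : fl s g m 0 = (s m)⁻¹ := by
  unfold fl
  rw [Fin.partialProd_zero, mul_one]

theorem Bf_fl (deg : Γ →* U) (s : U → Γ) (hs : ∀ m, deg (s m) = m) {n : ℕ} (g : Fin n → Γ)
    (m : U) (q : ℚ) : Bf deg (fl s g m) q = single g (MonoidAlgebra.single m q) := by
  unfold Bf
  rw [quo_fl, fl_zero, map_inv, hs, inv_inv]

theorem partialProd_quo {n : ℕ} (f : Fin (n + 1) → Γ) (i : Fin (n + 1)) :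
    Fin.partialProd (quo f) i = (f 0)⁻¹ * f i := by
  induction i using Fin.induction with
  | zero => rw [Fin.partialProd_zero]; group
  | succ j ih =>
    rw [Fin.partialProd_succ, ih]
    unfold quo
    group

theorem fl_quo (deg : Γ →* U) (s : U → Γ) {n : ℕ} (f : Fin (n + 1) → Γ) :
    fl s (quo f) (deg (f 0))⁻¹ = fun i => ((s (deg (f 0))⁻¹)⁻¹ * (f 0)⁻¹) * f i := by
  funext i
  unfold fl
  rw [partialProd_quo, mul_assoc]

/-- retraction of Γ onto the kernel -/
def rt (deg : Γ →* U) (s : U → Γ) : Γ → Γ := fun x => x * s (deg x)⁻¹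

theorem rt_mul (deg : Γ →* U) (s : U → Γ) (γ : Γ) (hγ : deg γ = 1) (x : Γ) :
    rt deg s (γ * x) = γ * rt deg s x := by
  unfold rt
  rw [map_mul, hγ, one_mul, mul_assoc]

/-- value of the homotopy on a generator -/
noncomputable def Hg (deg : Γ →* U) (s : U → Γ) {n : ℕ} (g : Fin n → Γ) (m : U) :
    ℚ →+ ((Fin (n + 1) → Γ) →₀ MonoidAlgebra ℚ U) :=
  ((BL deg (n + 1)).comp (pr (rt deg s))).comp (Finsupp.singleAddHom (List.ofFn (fl s g m)))

/-- the homotopy -/
noncomputable def Ho (deg : Γ →* U) (s : U → Γ) (n : ℕ) :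
    ((Fin n → Γ) →₀ MonoidAlgebra ℚ U) →+ ((Fin (n + 1) → Γ) →₀ MonoidAlgebra ℚ U) :=
  Finsupp.liftAddHom fun g => (Finsupp.liftAddHom (Hg deg s g)).comp
    (MonoidAlgebra.coeffAddEquiv : MonoidAlgebra ℚ U ≃+ (U →₀ ℚ)).toAddMonoidHom

theorem Ho_single (deg : Γ →* U) (s : U → Γ) (n : ℕ) (g : Fin n → Γ) (m : U) (q : ℚ) :
    Ho deg s n (single g (MonoidAlgebra.single m q)) =
      BL deg (n + 1) (pr (rt deg s) (single (List.ofFn (fl s g m)) q)) := by
  unfold Ho
  rw [Finsupp.liftAddHom_apply_single]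
  change Finsupp.liftAddHom (Hg deg s g) (MonoidAlgebra.single m q).coeff = _
  rw [MonoidAlgebra.coeff_single, Finsupp.liftAddHom_apply_single]
  rfl

theorem pr_len {V : Type*} (φ : V → V) {n : ℕ} {c : List V →₀ ℚ}
    (hc : c ∈ Sup ℚ fun l => l.length = n) : pr φ c ∈ Sup ℚ fun l => l.length = n + 1 :=
  pr_mem_Sup (fun l hl l' _ h => by rw [h, hl]) hc

theorem single_len {V : Type*} {n : ℕ} (f : Fin n → V) (q : ℚ) :
    single (List.ofFn f) q ∈ Sup ℚ fun l : List V => l.length = n :=
  single_mem_Sup (by simp) q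

theorem Ho_Bf (deg : Γ →* U) (s : U → Γ) (hs : ∀ m, deg (s m) = m) (n : ℕ)
    (f : Fin (n + 1) → Γ) (q : ℚ) :
    Ho deg s n (Bf deg f q) = BL deg (n + 1) (pr (rt deg s) (single (List.ofFn f) q)) := by
  have h1 : Bf deg f q = single (quo f) (MonoidAlgebra.single (deg (f 0))⁻¹ q) := rfl
  rw [h1, Ho_single, fl_quo]
  set γ := (s (deg (f 0))⁻¹)⁻¹ * (f 0)⁻¹ with hγ
  have hd : deg γ = 1 := by
    rw [hγ, map_mul, map_inv, hs, map_inv, inv_inv, mul_inv_cancel]
  have h2 : single (List.ofFn fun i => γ * f i) q =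
      mp (fun x => γ * x) (single (List.ofFn f) q) := by
    rw [mp_single, List.map_ofFn]
    rfl
  rw [h2, pr_mp _ _ (fun x => rt_mul deg s γ hd x)]
  exact BL_mul deg (n + 1) γ hd _ (pr_len _ (single_len f q))

theorem Ho_BL (deg : Γ →* U) (s : U → Γ) (hs : ∀ m, deg (s m) = m) (n : ℕ) (c : List Γ →₀ ℚ)
    (hc : c ∈ Sup ℚ fun l => l.length = n + 1) :
    Ho deg s n (BL deg n c) = BL deg (n + 1) (pr (rt deg s) c) := by
  refine sup_ind (P := fun c => Ho deg s n (BL deg n c) = BL deg (n + 1) (pr (rt deg s) c))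
    (by simp) (fun a b h1 h2 => by simp only [map_add, h1, h2]) ?_ c hc
  intro f q
  rw [BL_ofFn, Ho_Bf deg s hs]

theorem deg_partialProd (deg : Γ →* U) {n : ℕ} (g : Fin n → Γ) (i : Fin (n + 1)) :
    deg (Fin.partialProd g i) = cum deg g i := by
  induction i using Fin.induction with
  | zero => rw [Fin.partialProd_zero, map_one]; exact (cum_zero deg g).symm
  | succ j ih =>
    rw [Fin.partialProd_succ, map_mul, ih, Fin.val_succ, cum_succ deg g j j.2]
    rfl

theorem BL_mp_rt (ι : N →* Γ) (deg : Γ →* U) (hker : ∀ g, deg g = 1 ↔ g ∈ ι.range)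
    (s : U → Γ) (hs : ∀ m, deg (s m) = m) (n : ℕ) (g : Fin n → Γ) (m : U) (q : ℚ) :
    BL deg n (mp (rt deg s) (single (List.ofFn (fl s g m)) q)) =
      incC ι (MonoidAlgebra ℚ U) n
        (Phi ι deg s n (single g (MonoidAlgebra.single m q))) := by
  rw [mp_single, List.map_ofFn, BL_ofFn, Phi_single, incC_single]
  have hv : ∀ i : Fin (n + 1), rt deg s (fl s g m i) =
      (s m)⁻¹ * Fin.partialProd g i * s ((cum deg g i)⁻¹ * m) := by
    intro i
    unfold rt fl
    rw [map_mul, map_inv, hs, deg_partialProd, mul_inv, inv_inv, mul_comm m]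
  unfold Bf
  congr 1
  · funext i
    unfold quo
    rw [Function.comp_apply, Function.comp_apply, Function.comp_apply, hv, hv,
      Fin.partialProd_succ]
    unfold psi edg
    rw [lf_spec]
    · rw [Fin.val_succ, Fin.val_castSucc]
      group
    · rw [← hker]
      simp only [map_mul, map_inv, hs]
      exact edge_deg deg g m i i.2
  · rw [Function.comp_apply, hv]
    have : deg ((s m)⁻¹ * Fin.partialProd g 0 * s ((cum deg g (0 : Fin (n + 1)))⁻¹ * m)) = 1 := by
      rw [Fin.partialProd_zero, map_mul, map_mul, hs, map_inv, hs, map_one]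
      have h0 : cum deg g ((0 : Fin (n + 1)) : ℕ) = 1 := cum_zero deg g
      rw [h0]
      simp
    rw [this, inv_one]
    rfl

/-- HOMOTOPY, positive degrees -/
theorem homotopy_succ (ι : N →* Γ) (deg : Γ →* U) (hker : ∀ g, deg g = 1 ↔ g ∈ ι.range)
    (s : U → Γ) (hs : ∀ m, deg (s m) = m) (n : ℕ)
    (c : (Fin (n + 1) → Γ) →₀ MonoidAlgebra ℚ U) :
    dch (MonoidAlgebra ℚ U) (uL deg) (n + 1) (Ho deg s (n + 1) c) +
      Ho deg s n (dch (MonoidAlgebra ℚ U) (uL deg) n c) =
      incC ι (MonoidAlgebra ℚ U) (n + 1) (Phi ι deg s (n + 1) c) - c := by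
  induction c using Finsupp.induction_linear with
  | zero => simp
  | add f g hf hg =>
    simp only [map_add]
    rw [add_add_add_comm, hf, hg]
    abel
  | single g p =>
    induction p using MonoidAlgebra.induction_linear with
    | zero => simp
    | add f g hf hg =>
      simp only [map_add, Finsupp.single_add]
      rw [add_add_add_comm, hf, hg]
      abel
    | single m q =>
      set l := List.ofFn (fl s g m) with hl
      have hlen := single_len (fl s g m) q
      have h1 := bd_pr (rt deg s) (single l q)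
      have h2 := congrArg (BL deg (n + 1)) h1
      rw [map_add, map_sub, BL_mp_rt ι deg hker s hs] at h2
      rw [← dch_BL deg (n + 1) _ (pr_len _ hlen), ← Ho_BL deg s hs n, ← dch_BL deg n _ hlen,
        hl, BL_ofFn, Bf_fl deg s hs, ← Ho_single] at h2
      · exact h2
      · exact bd_mem_Sup (fun l hl l' _ h => by omega) hlen

/-- HOMOTOPY, degree zero -/
theorem homotopy_zero (ι : N →* Γ) (deg : Γ →* U) (hker : ∀ g, deg g = 1 ↔ g ∈ ι.range)
    (s : U → Γ) (hs : ∀ m, deg (s m) = m)
    (c : (Fin 0 → Γ) →₀ MonoidAlgebra ℚ U) :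
    dch (MonoidAlgebra ℚ U) (uL deg) 0 (Ho deg s 0 c) =
      incC ι (MonoidAlgebra ℚ U) 0 (Phi ι deg s 0 c) - c := by
  induction c using Finsupp.induction_linear with
  | zero => simp
  | add f g hf hg =>
    simp only [map_add]
    rw [hf, hg]
    abel
  | single g p =>
    induction p using MonoidAlgebra.induction_linear with
    | zero => simp
    | add f g hf hg =>
      simp only [map_add, Finsupp.single_add]
      rw [hf, hg]
      abel
    | single m q =>
      set l := List.ofFn (fl s g m) with hl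
      have hlen := single_len (fl s g m) q
      have h1 := bd_pr (rt deg s) (single l q)
      have h2 := congrArg (BL deg 0) h1
      rw [map_add, map_sub, BL_mp_rt ι deg hker s hs] at h2
      have h3 : pr (rt deg s) (bd (single l q)) = 0 := by
        rw [hl, List.ofFn_succ, List.ofFn_zero, bd_single, bd1_cons, bd1_nil, map_zero, sub_zero,
          pr_single, pr1_nil]
      rw [h3, map_zero, add_zero, ← dch_BL deg 0 _ (pr_len _ hlen), hl, BL_ofFn,
        Bf_fl deg s hs, ← Ho_single] at h2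
      exact h2

end Pool.Agent.TOR.H72
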