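import Pool.Agent.Helper72_TOR.Zk
import Pool.Agent.Helper96_TOR.Nf
import Pool.Agent.Helper24_TOR.B

/-! A(q) and the unipotence of transvections on the homology of IA_n. -/

set_option autoImplicit false

namespace Pool.Agent.TOR.H72

open CategoryTheory Rep Pool.Agent.TOR Pool.Agent.TOR.H57 Pool.Agent.TOR96 Pool.Agent.TOR.H58
open scoped Pointwise

/-- index of the family: a rank and a transvection -/
structure Ix where
  /-- rank -/
  n : ℕ
  /-- vector -/
  w : FreeGroup (Fin n)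
  /-- functional -/
  f : FreeGroup (Fin n) →* Multiplicative ℤ
  hf : f w = 1
  hχ : ∃ χ : FreeGroup (Fin n) →* Multiplicative ℤ, χ w ≠ 1
  hx : ∃ x₀, f x₀ ≠ 1

/-- the localised ring -/
abbrev RR : Type := Localization (Submonoid.powers (TT - 1))

/-- the coefficients -/
noncomputable def AA (i : Ix) : Rep.{0} RR (GT i.w i.f i.hf) :=
  chRep RR ((algebraMap (MonoidAlgebra ℚ (Multiplicative ℤ)) RR :
      MonoidAlgebra ℚ (Multiplicative ℤ) →* RR).comp (uL (dg i.w i.f i.hf i.hχ i.hx)⁻¹))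

/-- good simplices -/
def KK (i : Ix) (ρ : Set (FreeGroup (Fin i.n) × Subgroup (FreeGroup (Fin i.n)))) : Prop :=
  (∀ v ∈ ρ, gd i.f i.w v) ∧ WK ρ

theorem ix_card (i : Ix) {b : Set (FreeGroup (Fin i.n))} (hb : IsB b) : b.Finite ∧ b.ncard = i.n := by
  obtain ⟨h1, h2, h3⟩ := isB_std i.n
  have h4 := h1.fin_card hb h2
  exact ⟨h4.1, h4.2.trans h3⟩

/-- A(q) -/
theorem van_all (hNU : ∀ q, NUc q) (q : ℕ) :
    ∃ c, ∀ (i : Ix) (ρ : Set (FreeGroup (Fin i.n) × Subgroup (FreeGroup (Fin i.n)))),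
      KK i ρ → ρ.Finite → ρ.ncard + c ≤ i.n →
        Van (rs (AA i) (fixingSubgroup (GT i.w i.f i.hf) ρ)) q := by
  induction q using Nat.strong_induction_on with
  | _ q ih =>
  refine sys (I := Ix) (fun i => GT i.w i.f i.hf)
    (fun i => FreeGroup (Fin i.n) × Subgroup (FreeGroup (Fin i.n))) AA (fun i => i.n) KK
    (fun i ρ => KG i.f i.w ρ) ?_ (fun i ρ => KG.mono i.f i.w ρ) ?_ ?_ ?_ ?_ q ?_ ih
  · intro i ρ s h1 h2
    refine ⟨⟨?_, h2.2.2⟩, h2.2.1⟩
    rintro v (hv | hv)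
    · exact h2.1 v hv
    · exact h1.1 v hv
  · intro i ρ g hg s hs
    exact kg_act i.hf ρ g hg s hs
  · refine ⟨3, fun i ρ h1 h2 h3 => ?_⟩
    obtain ⟨h4, h5, h6⟩ := isB_std i.n
    exact wvf_nonempty h4 h5 i.f i.w h2 h1.2 (by rw [h6]; omega)
  · refine ⟨7, fun i ρ h1 h2 h3 M _ c hc => ?_⟩
    obtain ⟨h4, h5, h6⟩ := isB_std i.n
    exact wvf_h0 h4 h5 i.f i.w h2 h1.2 (by rw [h6]; omega) c hc
  · intro p
    refine ⟨4 * (p + 2) + 3, fun i ρ h1 h2 h3 M _ c hc => ?_⟩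
    obtain ⟨h4, h5, h6⟩ := isB_std i.n
    exact wvf_hex h4 h5 i.f i.w h2 h1.2 p (by rw [h6]; omega) c hc
  · obtain ⟨k, hk⟩ := hNU q
    refine ⟨k, fun i ρ ρ' h hK hf hn y => ?_⟩
    obtain ⟨hg, b, hb, hv⟩ := hK
    obtain ⟨hbf, hbn⟩ := ix_card i hb
    have hle : ρ'.ncard ≤ b.ncard := by
      refine Set.ncard_le_ncard_of_injOn Prod.fst (fun v hv' => (hv v hv').1) ?_ hbf
      intro v hv1 u hu1 huv
      refine Prod.ext huv ?_
      rw [(hv v hv1).2, (hv u hu1).2, huv]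
    obtain ⟨e, w0, f0, he, hf0, e1, e2, e3, e4⟩ := nf hb hbf h hv i.f i.w i.hf hg
      (m := b.ncard - ρ'.ncard) (K := k) (by omega) hn
    exact zk i.hf i.hχ i.hx RR h e w0 f0 he hf0 e1 e2 e3 e4 q
      (fun T hT1 hT2 x => hk _ w0 f0 hf0 T hT1 hT2 x) y

section top

variable {k Γ : Type} [CommRing k] [Group Γ]

theorem van_top (A : Rep.{0} k Γ) (S : Subgroup Γ) (hS : S = ⊤) (n : ℕ) (h : Van (rs A S) n) :
    Van A n := by
  subst hS
  refine van_of_elt fun x => ?_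
  let a : A ⟶ res (Subgroup.topEquiv.symm.toMonoidHom : Γ →* (⊤ : Subgroup Γ)) (rs A ⊤) :=
    ofHom ⟨LinearMap.id, fun _ => rfl⟩
  have h1 : gI (A := rs A ⊤) (B := A) (⊤ : Subgroup Γ).subtype (𝟙 (rs A ⊤)) n
      (gI (Subgroup.topEquiv.symm.toMonoidHom : Γ →* (⊤ : Subgroup Γ)) a n x) = x := by
    rw [gI_comp (C := A) (Subgroup.topEquiv.symm.toMonoidHom : Γ →* (⊤ : Subgroup Γ))
      (⊤ : Subgroup Γ).subtype a (𝟙 (rs A ⊤)) (𝟙 A) (fun _ => rfl)]
    exact gI_id A n x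
  rw [← h1, van_elt h (gI (Subgroup.topEquiv.symm.toMonoidHom : Γ →* (⊤ : Subgroup Γ)) a n x),
    map_zero]

end top

/-- exponent sum -/
noncomputable def ep {n : ℕ} (b : Fin n) : FreeGroup (Fin n) →* Multiplicative ℤ :=
  FreeGroup.lift fun c => if c = b then Multiplicative.ofAdd 1 else 1

theorem ep_of {n : ℕ} (b c : Fin n) : ep b (FreeGroup.of c) =
    if c = b then Multiplicative.ofAdd 1 else 1 := FreeGroup.lift_apply_of

/-- every transvection is locally unipotent on H_i(IA_n; ℚ), n large -/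
theorem nilT (hNU : ∀ q, NUc q) (i : ℕ) : ∃ N₀, ∀ n ≥ N₀, Pool.Agent.TOR.H24.NilT i n := by
  obtain ⟨c, hc⟩ := van_all hNU i
  refine ⟨c, fun n hn N hNn hN a b hab t ht1 ht2 x => ?_⟩
  have hfw : ep b (FreeGroup.of a) = 1 := by rw [ep_of, if_neg hab]
  let j : Ix := ⟨n, FreeGroup.of a, ep b, hfw, ⟨ep a, by
    rw [ep_of, if_pos rfl]
    intro h
    have := congrArg Multiplicative.toAdd h
    simp at this⟩, ⟨FreeGroup.of b, by
    rw [ep_of, if_pos rfl]
    intro h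
    have := congrArg Multiplicative.toAdd h
    simp at this⟩⟩
  have h1 := hc j ∅ ⟨fun v hv => absurd hv (Set.notMem_empty v),
    ⟨_, (isB_std n).1, fun v hv => absurd hv (Set.notMem_empty v)⟩⟩ Set.finite_empty
    (by rw [Set.ncard_empty, zero_add]; exact hn)
  have h2 := van_top (AA j) _ (fixingSubgroup_empty _ _) i h1
  obtain rfl : N = IA (FreeGroup (Fin n)) := Subgroup.ext fun φ => by
    rw [hN, mem_IA]
  have hact : Acts (FreeGroup.of a) (ep b) t 1 := by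
    intro y
    let T' : FreeGroup (Fin n) →* Abelianization (FreeGroup (Fin n)) :=
      Abelianization.of * (zpowersHom _ (Abelianization.of (FreeGroup.of a))).comp (ep b)
    have h3 : Abelianization.of.comp (t : FreeGroup (Fin n) ≃* FreeGroup (Fin n)).toMonoidHom =
        T' := by
      refine FreeGroup.ext_hom _ _ fun d => ?_
      change Abelianization.of (t (FreeGroup.of d)) = Abelianization.of (FreeGroup.of d) *
        (zpowersHom _ (Abelianization.of (FreeGroup.of a))) (ep b (FreeGroup.of d))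
      rw [ep_of, zpowersHom_apply]
      by_cases h : d = b
      · rw [h, ht1, if_pos rfl, map_mul, mul_comm]
        simp
      · rw [ht2 d h, if_neg h, toAdd_one, zpow_zero, mul_one]
    have h4 := DFunLike.congr_fun h3 y
    rw [one_mul, map_mul, map_zpow]
    refine h4.trans ?_
    change Abelianization.of y * (zpowersHom _ (Abelianization.of (FreeGroup.of a))) (ep b y) = _
    rw [zpowersHom_apply]
  exact unip_of_van (IA (FreeGroup (Fin n))) (GT (FreeGroup.of a) (ep b) hfw)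
    (IA_le_GT _ _ hfw) (dg _ _ hfw j.hχ j.hx) (dg_one_iff _ _ hfw j.hχ j.hx) ⟨t, 1, hact⟩
    (dg_eq _ _ hfw j.hχ j.hx _ 1 hact) RR i h2 x

end Pool.Agent.TOR.H72
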