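import Pool.Agent.Helper72_TOR.Sy
import Pool.Agent.Helper57_TOR.Nu1

/-! The group of automorphisms acting as powers of one transvection on the abelianization. -/

set_option autoImplicit false

namespace Pool.Agent.TOR.H72

open Pool.Agent.TOR Pool.Agent.TOR.H57 Pool.Agent.TOR96 Pool.Agent.TOR.H58
open scoped Pointwise

section gt

variable {F : Type} [Group F] (w : F) (f : F →* Multiplicative ℤ)

/-- φ acts on the abelianization as the k-th power of the transvection of (w, f) -/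
def Acts (φ : MulAut F) (k : ℤ) : Prop :=
  ∀ x : F, Abelianization.of (φ x) = Abelianization.of (x * w ^ (k * Multiplicative.toAdd (f x)))

variable {w f}

theorem Acts.ab {φ : MulAut F} {k : ℤ} (h : Acts w f φ k) (x : F) :
    Abelianization.of (φ x) = Abelianization.of x *
      Abelianization.of w ^ (k * Multiplicative.toAdd (f x)) := by
  rw [h x, map_mul, map_zpow]

theorem acts_one : Acts w f 1 0 := by
  intro x
  rw [zero_mul, zpow_zero, mul_one]; rfl

theorem acts_zero {φ : MulAut F} : Acts w f φ 0 ↔ φ ∈ IA F := by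
  rw [mem_IA]
  refine forall_congr' fun x => ?_
  rw [zero_mul, zpow_zero, mul_one]

theorem f_ab {x y : F} (h : Abelianization.of x = Abelianization.of y) : f x = f y := by
  have := congrArg (Abelianization.lift f) h
  rwa [Abelianization.lift_apply_of, Abelianization.lift_apply_of] at this

theorem Acts.f_eq (hf : f w = 1) {φ : MulAut F} {k : ℤ} (h : Acts w f φ k) (x : F) :
    f (φ x) = f x := by
  rw [f_ab (h x), map_mul, map_zpow, hf, one_zpow, mul_one]

theorem Acts.w_eq (hf : f w = 1) {φ : MulAut F} {k : ℤ} (h : Acts w f φ k) :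
    Abelianization.of (φ w) = Abelianization.of w := by
  rw [h w, hf, toAdd_one, mul_zero, zpow_zero, mul_one]

theorem Acts.mul (hf : f w = 1) {φ ψ : MulAut F} {k l : ℤ} (h : Acts w f φ k)
    (h' : Acts w f ψ l) : Acts w f (φ * ψ) (k + l) := by
  intro x
  rw [MulAut.mul_apply]
  have h1 := ab_congr (φ : F ≃* F).toMonoidHom (h' x)
  refine h1.trans ?_
  change Abelianization.of (φ (x * w ^ (l * Multiplicative.toAdd (f x)))) = _
  rw [map_mul, map_mul, map_zpow, map_zpow, h.w_eq hf, h.ab, map_mul, map_zpow, mul_assoc,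
    ← zpow_add, add_mul]

theorem Acts.inv (hf : f w = 1) {φ : MulAut F} {k : ℤ} (h : Acts w f φ k) :
    Acts w f φ⁻¹ (-k) := by
  intro x
  have h1 := h.ab (φ⁻¹ x)
  have h2 := h.f_eq hf (φ⁻¹ x)
  rw [MulAut.apply_inv_self] at h1 h2
  rw [map_mul, map_zpow, h1, ← h2, mul_assoc, ← zpow_add, neg_mul, add_neg_cancel, zpow_zero,
    mul_one]

theorem Acts.unique {χ : F →* Multiplicative ℤ} (hχ : χ w ≠ 1) {x₀ : F} (hx : f x₀ ≠ 1)
    {φ : MulAut F} {k l : ℤ} (h : Acts w f φ k) (h' : Acts w f φ l) : k = l := by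
  have h1 := f_ab (f := χ) ((h x₀).symm.trans (h' x₀))
  rw [map_mul, map_mul, map_zpow, map_zpow, mul_right_inj] at h1
  have h2 := congrArg Multiplicative.toAdd h1
  rw [toAdd_zpow, toAdd_zpow, smul_eq_mul, smul_eq_mul] at h2
  have h3 : Multiplicative.toAdd (χ w) ≠ 0 := fun h => hχ h
  have h4 : Multiplicative.toAdd (f x₀) ≠ 0 := fun h => hx h
  exact mul_right_cancel₀ h4 (mul_right_cancel₀ h3 h2)

variable (w f)

/-- the group Γ of the transvection -/
def GT (hf : f w = 1) : Subgroup (MulAut F) where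
  carrier := {φ | ∃ k : ℤ, Acts w f φ k}
  one_mem' := ⟨0, acts_one⟩
  mul_mem' := by
    rintro a b ⟨k, hk⟩ ⟨l, hl⟩
    exact ⟨k + l, hk.mul hf hl⟩
  inv_mem' := by
    rintro a ⟨k, hk⟩
    exact ⟨-k, hk.inv hf⟩

theorem mem_GT (hf : f w = 1) {φ : MulAut F} : φ ∈ GT w f hf ↔ ∃ k : ℤ, Acts w f φ k := Iff.rfl

theorem IA_le_GT (hf : f w = 1) : IA F ≤ GT w f hf := fun _ h => ⟨0, acts_zero.2 h⟩

/-- the degree -/
noncomputable def dg (hf : f w = 1) (hχ : ∃ χ : F →* Multiplicative ℤ, χ w ≠ 1)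
    (hx : ∃ x₀, f x₀ ≠ 1) : GT w f hf →* Multiplicative ℤ where
  toFun φ := Multiplicative.ofAdd φ.2.choose
  map_one' := by
    obtain ⟨χ, hχ⟩ := hχ
    obtain ⟨x₀, hx⟩ := hx
    have := (1 : GT w f hf).2.choose_spec.unique hχ hx acts_one
    rw [this]; rfl
  map_mul' a b := by
    obtain ⟨χ, hχ⟩ := hχ
    obtain ⟨x₀, hx⟩ := hx
    have := (a * b).2.choose_spec.unique hχ hx (a.2.choose_spec.mul hf b.2.choose_spec)
    rw [this]; rfl

theorem dg_eq (hf : f w = 1) (hχ : ∃ χ : F →* Multiplicative ℤ, χ w ≠ 1)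
    (hx : ∃ x₀, f x₀ ≠ 1) (φ : GT w f hf) (k : ℤ) (h : Acts w f (φ : MulAut F) k) :
    dg w f hf hχ hx φ = Multiplicative.ofAdd k := by
  obtain ⟨χ, hχ'⟩ := id hχ
  obtain ⟨x₀, hx'⟩ := id hx
  have := φ.2.choose_spec.unique hχ' hx' h
  exact congrArg Multiplicative.ofAdd this

theorem dg_spec (hf : f w = 1) (hχ : ∃ χ : F →* Multiplicative ℤ, χ w ≠ 1)
    (hx : ∃ x₀, f x₀ ≠ 1) (φ : GT w f hf) :
    Acts w f (φ : MulAut F) (Multiplicative.toAdd (dg w f hf hχ hx φ)) :=
  φ.2.choose_spec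

theorem dg_one_iff (hf : f w = 1) (hχ : ∃ χ : F →* Multiplicative ℤ, χ w ≠ 1)
    (hx : ∃ x₀, f x₀ ≠ 1) (φ : GT w f hf) :
    dg w f hf hχ hx φ = 1 ↔ (φ : MulAut F) ∈ IA F := by
  constructor
  · intro h
    have h1 := dg_spec w f hf hχ hx φ
    rw [h, toAdd_one] at h1
    exact acts_zero.1 h1
  · intro h
    exact dg_eq w f hf hχ hx φ 0 (acts_zero.2 h)

variable {w f}

theorem gd_act (hf : f w = 1) (g : GT w f hf) {v : F × Subgroup F} (hv : gd f w v) :
    gd f w (g • v) := by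
  obtain ⟨k, hk⟩ := g.2
  refine gd_smul (g : MulAut F) (hk.f_eq hf) ?_ hv
  rw [← Abelianization.ker_of, MonoidHom.mem_ker, map_mul, map_inv, hk.w_eq hf, inv_mul_cancel]

theorem kg_act (hf : f w = 1) (ρ : Set (F × Subgroup F)) (g : GT w f hf)
    (hg : ∀ v ∈ ρ, g • v = v) (s : Set (F × Subgroup F)) (hs : KG f w ρ s) :
    KG f w ρ ((fun v => g • v) '' s) := by
  obtain ⟨h1, h2, h3⟩ := hs
  refine ⟨?_, ?_, ?_⟩
  · rintro _ ⟨v, hv, rfl⟩
    exact gd_act hf g (h1 v hv)
  · rintro _ ⟨v, hv, rfl⟩ h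
    have h4 := hg _ h
    have h5 : g • v = v := MulAction.injective g h4
    rw [← h5] at hv
    exact h2 _ hv h
  · have h4 := h3.smul (g : MulAut F)
    have h5 : (fun v => (g : MulAut F) • v) '' (s ∪ ρ) = (fun v => g • v) '' s ∪ ρ := by
      rw [Set.image_union]
      congr 1
      ext v
      constructor
      · rintro ⟨u, hu, rfl⟩
        have h6 := hg u hu
        change g • u ∈ ρ
        rw [h6]; exact hu
      · intro hv
        exact ⟨v, hv, hg v hv⟩
    rwa [h5] at h4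

end gt

end Pool.Agent.TOR.H72
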