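import Pool.Agent.Helper72_TOR.Zs
import Pool.Agent.Helper41_TOR.Gn
import Pool.Agent.Helper96_TOR.Out

/-! The induction system: vanishing of H_q of all pointwise stabilisers. -/

set_option autoImplicit false

namespace Pool.Agent.TOR.H72

open CategoryTheory CategoryTheory.Limits Finsupp Rep Pool.Agent.TOR Pool.Agent.TOR.H58
open Pool.Agent.TOR96

section trans

variable {k Γ : Type} [CommRing k] [Group Γ]

theorem van_of_elt {A : Rep.{0} k Γ} {n : ℕ} (h : ∀ x : groupHomology A n, x = 0) : Van A n := by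
  have : Subsingleton (groupHomology A n) := ⟨fun a b => (h a).trans (h b).symm⟩
  exact ModuleCat.isZero_of_subsingleton _

variable {S S' : Subgroup Γ} (hS : S' ≤ S) (T : Subgroup S)
  (hT : ∀ g : S, g ∈ T ↔ (g : Γ) ∈ S')

/-- comparison of subgroups -/
def toS : T →* S' where
  toFun g := ⟨((g : S) : Γ), (hT g.1).1 g.2⟩
  map_one' := rfl
  map_mul' _ _ := rfl

/-- comparison of subgroups, inverse -/
def toT : S' →* T where
  toFun g := ⟨⟨(g : Γ), hS g.2⟩, (hT _).2 g.2⟩
  map_one' := rfl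
  map_mul' _ _ := rfl

/-- coefficients -/
noncomputable def cS (A : Rep.{0} k Γ) : res T.subtype (rs A S) ⟶ res (toS T hT) (rs A S') :=
  ofHom ⟨LinearMap.id, fun _ => rfl⟩

/-- coefficients -/
noncomputable def cT (A : Rep.{0} k Γ) : rs A S' ⟶ res (toT hS T hT) (res T.subtype (rs A S)) :=
  ofHom ⟨LinearMap.id, fun _ => rfl⟩

include hS hT in
theorem van_sub (A : Rep.{0} k Γ) (n : ℕ) (h : Van (rs A S') n) :
    Van (res T.subtype (rs A S)) n := by
  refine van_of_elt fun x => ?_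
  have h1 : gI (toT hS T hT) (cT hS T hT A) n (gI (toS T hT) (cS T hT A) n x) = x := by
    rw [gI_comp (toS T hT) (toT hS T hT) (cS T hT A) (cT hS T hT A)
      (𝟙 (res T.subtype (rs A S))) (fun _ => rfl)]
    exact gI_id _ n x
  rw [← h1, van_elt h (gI (toS T hT) (cS T hT A) n x), map_zero]

theorem sti_sub (A : Rep.{0} k Γ) (n : ℕ) (c : groupHomology (res T.subtype (rs A S)) n) :
    gI (A := res T.subtype (rs A S)) (B := rs A S) T.subtype (𝟙 (res T.subtype (rs A S))) n c =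
      up A hS n (gI (toS T hT) (cS T hT A) n c) := by
  unfold up
  rw [gI_comp (toS T hT) (Subgroup.inclusion hS) (cS T hT A) (𝟙 (rs A S'))
    (𝟙 (res T.subtype (rs A S))) (fun _ => rfl)]
  rfl

end trans

section gen

variable {k Γ : Type} [CommRing k] [Group Γ]

theorem gen_sub (S : Subgroup Γ) (A : Rep.{0} k Γ) (X : ℕ → Type) [∀ p, MulAction S (X p)]
    (face : ∀ p, Fin (p + 2) → X (p + 1) → X p) (m : ℕ) [Nonempty (X 0)]
    (hG : ∀ p i (g : S) (x : X (p + 1)), face p i (g • x) = g • face p i x)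
    (hs : ∀ p (i : Fin (p + 2)) (j : Fin (p + 3)) (h : (j : ℕ) ≤ i) (x : X (p + 2)),
      face p i (face (p + 1) j x) = face p (Fin.castLT j (lt_of_le_of_lt h i.2))
        (face (p + 1) i.succ x))
    (h0 : 0 < m → ∀ c : X 0 →₀ A, auM (X 0) A c = 0 → ∃ b, bdM X face A 0 b = c)
    (hex : ∀ p, p + 1 < m → ∀ c : X (p + 1) →₀ A, bdM X face A p c = 0 →
      ∃ b, bdM X face A (p + 1) b = c)
    (Sx : ∀ p, X p → Subgroup Γ) (hSx : ∀ p x, Sx p x ≤ S)
    (hmem : ∀ p x (g : S), g ∈ MulAction.stabilizer S x ↔ (g : Γ) ∈ Sx p x)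
    (hst : ∀ p, 1 ≤ p → p ≤ m → ∀ x : X p, Van (rs A (Sx p x)) (m - p))
    (W : AddSubgroup (groupHomology (rs A S) m))
    (hW : ∀ (x : X 0) (c : groupHomology (rs A (Sx 0 x)) m), up A (hSx 0 x) m c ∈ W)
    (y : groupHomology (rs A S) m) : y ∈ W := by
  refine gen_of_action X face m (rs A S) hG hs h0 hex ?_ W ?_ y
  · intro p h1 h2 x
    exact van_sub (hSx p x) _ (hmem p x) A (m - p) (hst p h1 h2 x)
  · intro x c
    have h := sti_sub (hSx 0 x) (MulAction.stabilizer S x) (hmem 0 x) A m c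
    have h1 : sti (X 0) (rs A S) x m c = _ := h
    rw [h1]
    exact hW x _

end gen

section sys

variable {R : Type} [CommRing R] {I : Type} (Γ : I → Type) [∀ i, Group (Γ i)] (V : I → Type)
  [∀ i, MulAction (Γ i) (V i)] (A : ∀ i, Rep.{0} R (Γ i)) (rk : I → ℕ)
  (K : ∀ i, Set (V i) → Prop) (L : ∀ i, Set (V i) → Set (V i) → Prop)

/-- THE INDUCTION SYSTEM. -/
theorem sys
    (hL : ∀ i ρ s, K i ρ → L i ρ s → K i (s ∪ ρ) ∧ ∀ v ∈ s, v ∉ ρ)
    (hmono : ∀ i ρ s t, s ⊆ t → L i ρ t → L i ρ s)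
    (hact : ∀ i ρ (g : Γ i), (∀ v ∈ ρ, g • v = v) → ∀ s, L i ρ s → L i ρ ((fun v => g • v) '' s))
    (hne : ∃ c, ∀ i ρ, K i ρ → ρ.Finite → ρ.ncard + c ≤ rk i → Nonempty (OX (L i ρ) 0))
    (h0 : ∃ c, ∀ i ρ, K i ρ → ρ.Finite → ρ.ncard + c ≤ rk i →
      ∀ (M : Type) [AddCommGroup M] (c : OX (L i ρ) 0 →₀ M), auM (OX (L i ρ) 0) M c = 0 →
        ∃ b, bdM (OX (L i ρ)) (ofc (hmono i ρ)) M 0 b = c)
    (hex : ∀ p, ∃ c, ∀ i ρ, K i ρ → ρ.Finite → ρ.ncard + c ≤ rk i →
      ∀ (M : Type) [AddCommGroup M] (c : OX (L i ρ) (p + 1) →₀ M),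
        bdM (OX (L i ρ)) (ofc (hmono i ρ)) M p c = 0 →
        ∃ b, bdM (OX (L i ρ)) (ofc (hmono i ρ)) M (p + 1) b = c)
    (q : ℕ)
    (hz : ∃ k, ∀ i ρ ρ' (h : ρ ⊆ ρ'), K i ρ' → ρ'.Finite → ρ.ncard + k = ρ'.ncard →
      ∀ x, up (A i) (fixingSubgroup_antitone (Γ i) (V i) h) q x = 0)
    (ih : ∀ j < q, ∃ c, ∀ i ρ, K i ρ → ρ.Finite → ρ.ncard + c ≤ rk i →
      Van (rs (A i) (fixingSubgroup (Γ i) ρ)) j) :
    ∃ c, ∀ i ρ, K i ρ → ρ.Finite → ρ.ncard + c ≤ rk i →
      Van (rs (A i) (fixingSubgroup (Γ i) ρ)) q := by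
  obtain ⟨c1, hc1⟩ := hne
  obtain ⟨c2, hc2⟩ := h0
  choose ch hch using hex
  obtain ⟨k, hk⟩ := hz
  have ih' : ∀ j, ∃ c, j < q → ∀ i ρ, K i ρ → ρ.Finite → ρ.ncard + c ≤ rk i →
      Van (rs (A i) (fixingSubgroup (Γ i) ρ)) j := by
    intro j
    by_cases hj : j < q
    · obtain ⟨c, hc⟩ := ih j hj
      exact ⟨c, fun _ => hc⟩
    · exact ⟨0, fun h => absurd h hj⟩
  choose cs hcs using ih'
  set C := c1 + c2 + ∑ p ∈ Finset.range q, ch p + ∑ j ∈ Finset.range q, cs j + (q + 1) with hC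
  have hCh : ∀ p < q, ch p ≤ ∑ p ∈ Finset.range q, ch p := fun p hp =>
    Finset.single_le_sum (f := ch) (fun _ _ => Nat.zero_le _) (Finset.mem_range.2 hp)
  have hCs : ∀ p < q, cs p ≤ ∑ p ∈ Finset.range q, cs p := fun p hp =>
    Finset.single_le_sum (f := cs) (fun _ _ => Nat.zero_le _) (Finset.mem_range.2 hp)
  -- generation
  have key : ∀ i (ρ : Set (V i)), K i ρ → ρ.Finite → ρ.ncard + C ≤ rk i →
      ∀ W : AddSubgroup (groupHomology (rs (A i) (fixingSubgroup (Γ i) ρ)) q),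
      (∀ v, v ∉ ρ → K i (insert v ρ) →
        ∀ c, up (A i) (fixingSubgroup_antitone (Γ i) (V i) (Set.subset_insert v ρ)) q c ∈ W) →
      ∀ y, y ∈ W := by
    intro i ρ hK hf hr W hW y
    let act : ∀ p, MulAction (fixingSubgroup (Γ i) ρ) (OX (L i ρ) p) := fun p =>
      oxAct (G := fixingSubgroup (Γ i) ρ) (fun g s hs =>
        hact i ρ (g : Γ i) (fun v hv => (mem_fixingSubgroup_iff _).1 g.2 v hv) s hs) p
    have hne : Nonempty (OX (L i ρ) 0) := hc1 i ρ hK hf (by omega)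
    refine gen_sub (fixingSubgroup (Γ i) ρ) (A i) (OX (L i ρ)) (ofc (hmono i ρ)) q
      (fun p j g x => rfl) ?_ ?_ ?_ (fun p x => fixingSubgroup (Γ i) (Set.range x.1 ∪ ρ))
      (fun p x => fixingSubgroup_antitone (Γ i) (V i) Set.subset_union_right) ?_ ?_ W ?_ y
    · intro p j l h x
      exact ofc_ofc (hmono i ρ) p j l h x
    · intro _ c hc
      exact hc2 i ρ hK hf (by omega) _ c hc
    · intro p hp c hc
      have := hCh p (by omega)
      exact hch p i ρ hK hf (by omega) _ c hc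
    · intro p x g
      rw [MulAction.mem_stabilizer_iff, mem_fixingSubgroup_iff]
      constructor
      · intro h v hv
        rcases hv with ⟨j, rfl⟩ | hv
        · have h1 := congrArg Subtype.val h
          exact congrFun h1 j
        · exact (mem_fixingSubgroup_iff _).1 g.2 v hv
      · intro h
        refine Subtype.ext (funext fun j => ?_)
        exact h _ (Or.inl ⟨j, rfl⟩)
    · intro p h1 h2 x
      have h3 := hL i ρ _ hK x.2
      have h4 : (Set.range x.1 ∪ ρ).ncard ≤ p + 1 + ρ.ncard := by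
        refine (Set.ncard_union_le _ _).trans ?_
        have : (Set.range x.1).ncard ≤ p + 1 := by
          rw [← Set.image_univ]
          refine (Set.ncard_image_le Set.finite_univ).trans ?_
          rw [Set.ncard_univ, Nat.card_fin]
        omega
      have := hCs (q - p) (by omega)
      exact hcs (q - p) (by omega) i _ h3.1 ((Set.finite_range _).union hf) (by omega)
    · intro x c
      have h3 := hL i ρ _ hK x.2
      have h4 : Set.range x.1 ∪ ρ = insert (x.1 0) ρ := by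
        ext v
        constructor
        · rintro (⟨j, rfl⟩ | hv)
          · have : j = 0 := Fin.ext (by have := j.2; omega)
            rw [this]; exact Set.mem_insert _ _
          · exact Set.mem_insert_of_mem _ hv
        · rintro (rfl | hv)
          · exact Or.inl ⟨0, rfl⟩
          · exact Or.inr hv
      have h5 : ∀ (ρ₁ : Set (V i)) (h6 : ρ₁ = insert (x.1 0) ρ) (h7 : ρ ⊆ ρ₁)
          (c : groupHomology (rs (A i) (fixingSubgroup (Γ i) ρ₁)) q),
          up (A i) (fixingSubgroup_antitone (Γ i) (V i) h7) q c ∈ W := by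
        intro ρ₁ h6 h7 c
        subst h6
        refine hW (x.1 0) (h3.2 _ ⟨0, rfl⟩) ?_ c
        rw [← h4]; exact h3.1
      exact h5 _ h4 Set.subset_union_right c
  -- descending induction
  have desc : ∀ j ≤ k, ∀ i (ρ ρ' : Set (V i)) (h : ρ ⊆ ρ'), K i ρ' → ρ'.Finite →
      ρ.ncard + (k - j) = ρ'.ncard → ρ'.ncard + j + C ≤ rk i →
      ∀ x, up (A i) (fixingSubgroup_antitone (Γ i) (V i) h) q x = 0 := by
    intro j
    induction j with
    | zero =>
      intro _ i ρ ρ' h hK hf hn hr x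
      exact hk i ρ ρ' h hK hf (by omega) x
    | succ j ihj =>
      intro hj i ρ ρ' h hK hf hn hr x
      have h1 := key i ρ' hK hf (by omega)
        (LinearMap.ker (up (A i) (fixingSubgroup_antitone (Γ i) (V i) h) q)).toAddSubgroup
        (by
          intro v hv hKv c
          change up (A i) _ q (up (A i) _ q c) = 0
          rw [up_up]
          have hcard : (insert v ρ').ncard = ρ'.ncard + 1 := Set.ncard_insert_of_notMem hv hf
          exact ihj (by omega) i ρ (insert v ρ') (h.trans (Set.subset_insert v ρ')) hKv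
            (hf.insert v) (by omega) (by omega) c) x
      exact h1
  refine ⟨k + C, fun i ρ hK hf hr => van_of_elt fun x => ?_⟩
  have h1 := desc k le_rfl i ρ ρ le_rfl hK hf (by omega) (by omega) x
  rwa [up_self] at h1

end sys

end Pool.Agent.TOR.H72
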