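import Pool.Agent.Helper72_TOR.Zt
import Pool.Agent.Helper41_TOR.Tz

/-! Zero maps on H_i(Γ; R_χ) from unipotence of the classes of H_i(N; ℚ), homology level. -/

set_option autoImplicit false

namespace Pool.Agent.TOR.H72

open CategoryTheory CategoryTheory.Limits Finsupp Rep Pool.Agent.TOR Pool.Agent.TOR.H58

section torsion

variable {N N' Γ Γ' U : Type} [Group N] [Group N'] [Group Γ] [Group Γ'] [CommGroup U]

theorem jm_chainf (R : Type) [CommRing R] (j : Γ →* Γ') (u : Γ' →* R) (i : ℕ)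
    (z : (Fin i → Γ) →₀ R) :
    (groupHomology.chainsMap j (jm R j u)).f i z = mj j R i z := by
  rw [groupHomology.chainsMap_f]
  change Finsupp.mapRange.linearMap (LinearMap.id : R →ₗ[R] R)
    (Finsupp.mapDomain (fun g => j ∘ g) z) = _
  rw [Finsupp.mapRange.linearMap_id]
  rfl

/-- THE ZERO MAP THEOREM, homology level -/
theorem zero_jm (ι : N →* Γ) (hι : Function.Injective ι) (ι' : N' →* Γ')
    (hι' : Function.Injective ι') (deg' : Γ' →* U)
    (j : Γ →* Γ') 
    (hker : ∀ g, deg' (j g) = 1 ↔ g ∈ ι.range) (hker' : ∀ g, deg' g = 1 ↔ g ∈ ι'.range)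
    (jN : N →* N')
    (hjN : ∀ x, ι' (jN x) = j (ι x)) (s : U → Γ) (hs : ∀ m, deg' (j (s m)) = m)
    (c : U → (N' →* N')) (hc : ∀ m x, ι' (c m x) = (j (s m))⁻¹ * ι' x * j (s m))
    (R : Type) [CommRing R] [Algebra (MonoidAlgebra ℚ U) R] (M : Submonoid (MonoidAlgebra ℚ U))
    [IsLocalization M R] (hM : M ≤ nonZeroDivisors (MonoidAlgebra ℚ U)) (i : ℕ)
    (hyp : ∀ x : groupHomology (Rep.trivial ℚ N ℚ) i, ∃ p ∈ M,
      (p.coeff.sum fun m q => q • hm (c m) i (hmap jN i x)) = 0)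
    (y : groupHomology (chRep R (((algebraMap (MonoidAlgebra ℚ U) R :
      MonoidAlgebra ℚ U →* R).comp (uL deg')).comp j)) i) :
    gI j (jm R j ((algebraMap (MonoidAlgebra ℚ U) R :
      MonoidAlgebra ℚ U →* R).comp (uL deg'))) i y = 0 := by
  unfold gI
  rw [map_zero_of_chain _ _ j (jm R j ((algebraMap (MonoidAlgebra ℚ U) R :
      MonoidAlgebra ℚ U →* R).comp (uL deg'))) i]
  · rfl
  · intro z
    have hz : Cyc R ((algebraMap (MonoidAlgebra ℚ U) R : MonoidAlgebra ℚ U →* R).comp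
      (uL (deg'.comp j))) i (groupHomology.iCycles (chRep R (((algebraMap (MonoidAlgebra ℚ U) R :
      MonoidAlgebra ℚ U →* R).comp (uL deg')).comp j)) i z) := cyc_iCycles R _ i z
    obtain ⟨y, hy⟩ := chain_zero ι hι ι' hι' (deg'.comp j) deg' hker hker' j (fun _ => rfl)
      jN hjN s hs c hc R M hM i hyp _ hz
    exact ⟨y, hy.trans (jm_chainf R j _ i _).symm⟩

end torsion

end Pool.Agent.TOR.H72
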