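import Pool.Agent.Helper72_TOR.Gt
import Pool.Agent.Helper57_TOR.Nu7
import Pool.Agent.Helper24_TOR.Tl

/-! The maps H_q(St ρ') → H_q(St ρ) are zero when ρ' has many more vertices than ρ. -/

set_option autoImplicit false

namespace Pool.Agent.TOR.H72

open CategoryTheory Rep Pool.Agent.TOR Pool.Agent.TOR.H57 Pool.Agent.TOR96 Pool.Agent.TOR.H58
open scoped Pointwise

section nat

variable {N N' N'' : Type} [Group N] [Group N'] [Group N'']

theorem hn_comp' (f : N →* N') (g : N' →* N'') (i : ℕ)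
    (x : groupHomology (Rep.trivial ℚ N ℚ) i) :
    hn g i (hn f i x) = hn (g.comp f) i x := by
  unfold hn
  have h := groupHomology.map_comp (A := Rep.trivial ℚ N ℚ) (B := Rep.trivial ℚ N' ℚ)
    (C := Rep.trivial ℚ N'' ℚ) f g (𝟙 (Rep.trivial ℚ N ℚ)) (𝟙 (Rep.trivial ℚ N' ℚ)) i
  have h2 : groupHomology.map (A := Rep.trivial ℚ N ℚ) (B := Rep.trivial ℚ N'' ℚ) (g.comp f)
    (𝟙 (Rep.trivial ℚ N ℚ)) i = groupHomology.map (A := Rep.trivial ℚ N ℚ)
      (B := Rep.trivial ℚ N'' ℚ) (g.comp f) ((𝟙 (Rep.trivial ℚ N ℚ)) ≫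
        (resFunctor f).map (𝟙 (Rep.trivial ℚ N' ℚ))) i :=
    groupHomology.map_congr rfl (by ext; rfl) i
  exact (DFunLike.congr_fun (congrArg ModuleCat.Hom.hom (h2.trans h)) x).symm

theorem hn_id' (i : ℕ) (x : groupHomology (Rep.trivial ℚ N ℚ) i) :
    hn (MonoidHom.id N) i x = x := by
  exact DFunLike.congr_fun (hm_id (N := N) i) x

theorem cR_nat' {G G' : Type} [Group G] [Group G'] (N : Subgroup G) [N.Normal] (N' : Subgroup G')
    [N'.Normal] (jN : N →* N') (g : G) (g' : G')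
    (hj : ∀ x, ((jN (cN N g x) : N') : G') = g' * (jN x : N') * g'⁻¹) (i : ℕ)
    (w : groupHomology (Rep.trivial ℚ N ℚ) i) :
    hn jN i (cR N i g w) = cR N' i g' (hn jN i w) := by
  have h : jN.comp (cN N g) = (cN N' g').comp jN := by
    ext x
    change ((jN (cN N g x) : N') : G') = (cN N' g' (jN x) : G')
    rw [hj, cN_coe]
  have h1 := hn_comp' (cN N g) jN i w
  have h2 := hn_comp' jN (cN N' g') i w
  rw [h, ← h2] at h1
  exact h1

theorem cR_nat_pow' {G G' : Type} [Group G] [Group G'] (N : Subgroup G) [N.Normal]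
    (N' : Subgroup G') [N'.Normal] (jN : N →* N') (g : G) (g' : G')
    (hj : ∀ x, ((jN (cN N g x) : N') : G') = g' * (jN x : N') * g'⁻¹) (i : ℕ) (m : ℕ)
    (w : groupHomology (Rep.trivial ℚ N ℚ) i) :
    hn jN i (((cR N i g - 1) ^ m) w) = ((cR N' i g' - 1) ^ m) (hn jN i w) := by
  induction m generalizing w with
  | zero => simp
  | succ m ih =>
    rw [pow_succ, Module.End.mul_apply, ih, pow_succ, Module.End.mul_apply]
    congr 1
    rw [LinearMap.sub_apply, LinearMap.sub_apply, map_sub, cR_nat' N N' jN g g' hj]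
    rfl

end nat

section stab

variable {X Y : Type}

/-- retraction onto the near part -/
def ret : FreeGroup (X ⊕ Y) →* FreeGroup X :=
  FreeGroup.lift (Sum.elim FreeGroup.of fun _ => 1)

theorem ret_inn (a : FreeGroup X) : ret (Y := Y) (inn a) = a := by
  have h : (ret (X := X) (Y := Y)).comp inn = MonoidHom.id _ := by
    refine FreeGroup.ext_hom _ _ fun x => ?_
    change ret (inn (FreeGroup.of x)) = FreeGroup.of x
    rw [inn_of]
    exact FreeGroup.lift_apply_of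
  exact DFunLike.congr_fun h a

theorem st_mem_iff (φ : MulAut (FreeGroup X)) :
    H57.st (Y := Y) φ ∈ IA (FreeGroup (X ⊕ Y)) ↔ φ ∈ IA (FreeGroup X) := by
  constructor
  · intro h x
    have h1 := ab_congr (ret (X := X) (Y := Y)) (h (inn x))
    rwa [st_inn, ret_inn, ret_inn] at h1
  · exact st_mem φ

theorem st_injective : Function.Injective (H57.st (X := X) (Y := Y)) := by
  intro φ ψ h
  refine MulEquiv.ext fun x => ?_
  have h1 := st_inn (Y := Y) φ x
  have h2 := st_inn (Y := Y) ψ x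
  rw [h, h2] at h1
  have h3 := congrArg ret h1
  rw [ret_inn, ret_inn] at h3
  exact h3.symm

end stab

/-- the statement of helper96's normal form theorem -/
def NF : Prop := ∀ {F : Type} [Group F] {b : Set F} (_ : IsB b) (_ : b.Finite)
  {ρ ρ' : Set (F × Subgroup F)} (_ : ρ ⊆ ρ')
  (_ : ∀ v ∈ ρ', v.1 ∈ b ∧ v.2 = Subgroup.closure (b \ {v.1})) (f : F →* Multiplicative ℤ) (w : F)
  (_ : f w = 1) (_ : ∀ v ∈ ρ', gd f w v) {m K : ℕ} (_ : m + ρ'.ncard = b.ncard)
  (_ : ρ.ncard + K = ρ'.ncard),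
  ∃ (e : MulAut (FreeGroup (Fin m ⊕ Fin K)) →* MulAut F) (w0 : FreeGroup (Fin m))
    (f0 : FreeGroup (Fin m) →* Multiplicative ℤ), Function.Injective e ∧ f0 w0 = 1 ∧
    (∀ g : MulAut F, (∀ v ∈ ρ, g • v = v) ↔ ∃ φ, e φ = g) ∧
    (∀ g : MulAut F, (∀ v ∈ ρ', g • v = v) ↔ ∃ φ : MulAut (FreeGroup (Fin m)), e (H57.st φ) = g) ∧
    (∀ φ, e φ ∈ IA F ↔ φ ∈ IA (FreeGroup (Fin m ⊕ Fin K))) ∧
    (∀ φ, (∀ x : F, Abelianization.of (e φ x) =
        Abelianization.of (x * w ^ Multiplicative.toAdd (f x))) ↔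
      ((∀ i, Abelianization.of (φ (FreeGroup.of (Sum.inl i))) =
        Abelianization.of (FreeGroup.of (Sum.inl i) *
          inn w0 ^ Multiplicative.toAdd (f0 (FreeGroup.of i)))) ∧
        ∀ j, Abelianization.of (φ (FreeGroup.of (Sum.inr j))) =
          Abelianization.of (FreeGroup.of (Sum.inr j))))

section main

variable {F : Type} [Group F] {w : F} {f : F →* Multiplicative ℤ} (hf : f w = 1)
  (hχ : ∃ χ : F →* Multiplicative ℤ, χ w ≠ 1) (hx : ∃ x₀, f x₀ ≠ 1)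

/-- the degree zero part of the stabiliser of ρ -/
noncomputable abbrev Nr (ρ : Set (F × Subgroup F)) :
    Subgroup (fixingSubgroup (GT w f hf) ρ) :=
  ((dg w f hf hχ hx).comp (fixingSubgroup (GT w f hf) ρ).subtype).ker

/-- homomorphisms into the degree zero part -/
noncomputable def toNr (ρ : Set (F × Subgroup F)) {M : Type} [Group M] (e : M →* MulAut F)
    (h1 : ∀ x, e x ∈ IA F) (h2 : ∀ x, ∀ v ∈ ρ, e x • v = v) : M →* Nr hf hχ hx ρ where
  toFun x := ⟨⟨⟨e x, IA_le_GT w f hf (h1 x)⟩, (mem_fixingSubgroup_iff _).2 (h2 x)⟩,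
    MonoidHom.mem_ker.2 ((dg_one_iff w f hf hχ hx _).2 (h1 x))⟩
  map_one' := Subtype.ext (Subtype.ext (Subtype.ext (map_one e)))
  map_mul' a b := Subtype.ext (Subtype.ext (Subtype.ext (map_mul e a b)))

/-- inclusion of degree zero parts -/
noncomputable def nuN {ρ ρ' : Set (F × Subgroup F)} (h : ρ ⊆ ρ') :
    Nr hf hχ hx ρ' →* Nr hf hχ hx ρ where
  toFun x := ⟨Subgroup.inclusion (fixingSubgroup_antitone (GT w f hf) _ h) x.1, x.2⟩
  map_one' := rfl
  map_mul' _ _ := rfl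

theorem zk (R : Type) [CommRing R] [Algebra (MonoidAlgebra ℚ (Multiplicative ℤ)) R]
    [IsLocalization (Submonoid.powers (TT - 1)) R] {ρ ρ' : Set (F × Subgroup F)} (h : ρ ⊆ ρ')
    {m K : ℕ} (e : MulAut (FreeGroup (Fin m ⊕ Fin K)) →* MulAut F) (w0 : FreeGroup (Fin m))
    (f0 : FreeGroup (Fin m) →* Multiplicative ℤ) (he : Function.Injective e) (hf0 : f0 w0 = 1)
    (h1 : ∀ g : MulAut F, (∀ v ∈ ρ, g • v = v) ↔ ∃ φ, e φ = g)
    (h2 : ∀ g : MulAut F, (∀ v ∈ ρ', g • v = v) ↔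
      ∃ φ : MulAut (FreeGroup (Fin m)), e (H57.st φ) = g)
    (h3 : ∀ φ, e φ ∈ IA F ↔ φ ∈ IA (FreeGroup (Fin m ⊕ Fin K)))
    (h4 : ∀ φ, (∀ x : F, Abelianization.of (e φ x) =
        Abelianization.of (x * w ^ Multiplicative.toAdd (f x))) ↔
      ((∀ i, Abelianization.of (φ (FreeGroup.of (Sum.inl i))) =
        Abelianization.of (FreeGroup.of (Sum.inl i) *
          inn w0 ^ Multiplicative.toAdd (f0 (FreeGroup.of i)))) ∧
        ∀ j, Abelianization.of (φ (FreeGroup.of (Sum.inr j))) =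
          Abelianization.of (FreeGroup.of (Sum.inr j)))) (q : ℕ)
    (hN : ∀ T : MulAut (FreeGroup (Fin m ⊕ Fin K)),
      (∀ i, Abelianization.of (T (FreeGroup.of (Sum.inl i))) =
        Abelianization.of (FreeGroup.of (Sum.inl i) *
          inn w0 ^ Multiplicative.toAdd (f0 (FreeGroup.of i)))) →
      (∀ j, Abelianization.of (T (FreeGroup.of (Sum.inr j))) =
        Abelianization.of (FreeGroup.of (Sum.inr j))) →
      ∀ x : groupHomology (Rep.trivial ℚ (IA (FreeGroup (Fin m))) ℚ) q,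
        ∃ a : ℕ, ((cR (IA (FreeGroup (Fin m ⊕ Fin K))) q T - 1) ^ a) (hn stI q x) = 0)
    (y : groupHomology (rs (chRep R ((algebraMap (MonoidAlgebra ℚ (Multiplicative ℤ)) R :
      MonoidAlgebra ℚ (Multiplicative ℤ) →* R).comp (uL (dg w f hf hχ hx)⁻¹)))
        (fixingSubgroup (GT w f hf) ρ')) q) :
    up (chRep R ((algebraMap (MonoidAlgebra ℚ (Multiplicative ℤ)) R :
      MonoidAlgebra ℚ (Multiplicative ℤ) →* R).comp (uL (dg w f hf hχ hx)⁻¹)))
        (fixingSubgroup_antitone (GT w f hf) (F × Subgroup F) h) q y = 0 := by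
  -- the lift of the transvection
  obtain ⟨t0, ht0⟩ := Pool.Agent.TOR.H24.t_lift w0 f0 hf0
  set t1 : MulAut (FreeGroup (Fin m ⊕ Fin K)) := H57.st t0 with ht1
  have hl : ∀ i, Abelianization.of (t1 (FreeGroup.of (Sum.inl i))) =
        Abelianization.of (FreeGroup.of (Sum.inl i) *
          inn w0 ^ Multiplicative.toAdd (f0 (FreeGroup.of i))) := by
    intro i
    rw [ht1, st_inl]
    have := ab_congr (inn (X := Fin m) (Y := Fin K)) (ht0 (FreeGroup.of i))
    rwa [map_mul, map_zpow, inn_of] at this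
  have hr : ∀ j, Abelianization.of (t1 (FreeGroup.of (Sum.inr j))) =
        Abelianization.of (FreeGroup.of (Sum.inr j)) := by
    intro j
    rw [ht1, st_inr]
  have hact : Acts w f (e t1) 1 := by
    intro x
    rw [one_mul]
    exact (h4 t1).2 ⟨hl, hr⟩ x
  have hfix : ∀ v ∈ ρ', e t1 • v = v := (h2 _).2 ⟨t0, rfl⟩
  let t : fixingSubgroup (GT w f hf) ρ' := ⟨⟨e t1, 1, hact⟩, (mem_fixingSubgroup_iff _).2 hfix⟩
  -- comparison homomorphisms
  let α' : IA (FreeGroup (Fin m)) →* Nr hf hχ hx ρ' :=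
    toNr hf hχ hx ρ' (e.comp ((H57.st).comp (IA (FreeGroup (Fin m))).subtype))
      (fun x => (h3 _).2 (st_mem _ x.2)) (fun x => (h2 _).2 ⟨x.1, rfl⟩)
  let α : IA (FreeGroup (Fin m ⊕ Fin K)) →* Nr hf hχ hx ρ :=
    toNr hf hχ hx ρ (e.comp (IA (FreeGroup (Fin m ⊕ Fin K))).subtype)
      (fun x => (h3 _).2 x.2) (fun x => (h1 _).2 ⟨x.1, rfl⟩)
  have hα' : Function.Bijective α' := by
    constructor
    · intro a b hab
      have h5 : e (H57.st (a : MulAut (FreeGroup (Fin m)))) = e (H57.st (b : MulAut (FreeGroup (Fin m)))) :=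
        congrArg (fun z : Nr hf hχ hx ρ' =>
          ((((z : Nr hf hχ hx ρ').1 : fixingSubgroup (GT w f hf) ρ').1 : GT w f hf).1 :
            MulAut F)) hab
      exact Subtype.ext (st_injective (he h5))
    · intro z
      have h5 : (z.1.1.1 : MulAut F) ∈ IA F := (dg_one_iff w f hf hχ hx z.1.1).1 z.2
      obtain ⟨φ, hφ⟩ := (h2 z.1.1.1).1 ((mem_fixingSubgroup_iff _).1 z.1.2)
      rw [← hφ, h3, st_mem_iff] at h5
      exact ⟨⟨φ, h5⟩, Subtype.ext (Subtype.ext (Subtype.ext hφ))⟩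
  let ε : IA (FreeGroup (Fin m)) ≃* Nr hf hχ hx ρ' := MulEquiv.ofBijective α' hα'
  refine zero_up (fixingSubgroup_antitone (GT w f hf) (F × Subgroup F) h) (Nr hf hχ hx ρ')
    (Nr hf hχ hx ρ) (nuN hf hχ hx h) (fun _ => rfl) (dg w f hf hχ hx)
    (fun g => Iff.rfl) (fun g => Iff.rfl) t (dg_eq w f hf hχ hx _ 1 hact) R
    (Submonoid.powers (TT - 1))
    (powers_le_nonZeroDivisors_of_noZeroDivisors TT_sub_one_ne) q ?_ y
  intro x
  set x0 := hn ε.symm.toMonoidHom q x with hx0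
  have h6 : x = hn α' q x0 := by
    rw [hx0, hn_comp']
    have : α'.comp ε.symm.toMonoidHom = MonoidHom.id _ := by
      refine MonoidHom.ext fun z => ?_
      exact ε.apply_symm_apply z
    rw [this, hn_id']
  obtain ⟨a, ha⟩ := hN t1 hl hr x0
  refine ⟨(TT - 1) ^ a, ⟨a, rfl⟩, ?_⟩
  rw [TT_pow_eval, h6, hn_comp']
  have h7 : (nuN hf hχ hx h).comp α' = α.comp stI := by
    refine MonoidHom.ext fun z => ?_
    exact Subtype.ext (Subtype.ext (Subtype.ext rfl))
  rw [h7, ← hn_comp']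
  rw [← cR_nat_pow' (IA (FreeGroup (Fin m ⊕ Fin K))) (Nr hf hχ hx ρ) α t1 _ ?_ q a, ha, map_zero]
  intro z
  refine Subtype.ext (Subtype.ext ?_)
  change e ((cN (IA (FreeGroup (Fin m ⊕ Fin K))) t1 z : IA (FreeGroup (Fin m ⊕ Fin K))) :
    MulAut (FreeGroup (Fin m ⊕ Fin K))) = e t1 * e z * (e t1)⁻¹
  rw [cN_coe, map_mul, map_mul, map_inv]

end main

end Pool.Agent.TOR.H72
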