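import Pool.Agent.Helper72_TOR.Bc

/-! Zero maps on H_i(Γ; R_χ) from torsion of the classes of H_i(N; ℚ). -/

set_option autoImplicit false

namespace Pool.Agent.TOR.H72

open CategoryTheory CategoryTheory.Limits Finsupp Rep Pool.Agent.TOR Pool.Agent.TOR.H58

universe u

section general

variable {k G : Type u} [CommRing k] [Group G]

/-- a cycle whose underlying chain is a boundary is zero in homology -/
theorem pi_zero' (A : Rep.{u} k G) (i : ℕ) (z : groupHomology.cycles A i)
    (y : (Fin (i + 1) → G) →₀ A)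
    (h : groupHomology.inhomogeneousChains.d A i y = groupHomology.iCycles A i z) :
    groupHomology.π A i z = 0 := by
  have h1 : z = groupHomology.toCycles A (i + 1) i y := by
    have hinj : Function.Injective (groupHomology.iCycles A i) :=
      (ModuleCat.mono_iff_injective _).1 inferInstance
    apply hinj
    rw [← h]
    have h2 := (groupHomology.inhomogeneousChains A).toCycles_i (i + 1) i
    have h3 := congrArg (fun φ => φ.hom y) h2
    rw [groupHomology.inhomogeneousChains.d_def] at h3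
    exact h3.symm
  rw [h1]
  have h2 := (groupHomology.inhomogeneousChains A).toCycles_comp_homologyπ (i + 1) i
  exact congrArg (fun φ => φ.hom y) h2

/-- a cycle which is zero in homology is a boundary -/
theorem bd_of_pi_zero (A : Rep.{u} k G) (i : ℕ) (z : groupHomology.cycles A i)
    (h : groupHomology.π A i z = 0) :
    ∃ y : (Fin (i + 1) → G) →₀ A,
      groupHomology.inhomogeneousChains.d A i y = groupHomology.iCycles A i z := by
  have hp : (ComplexShape.down ℕ).prev i = i + 1 := by simp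
  have hex := (ShortComplex.moduleCat_exact_iff _).1
    (ShortComplex.exact_of_g_is_cokernel
      (ShortComplex.mk ((groupHomology.inhomogeneousChains A).toCycles (i + 1) i)
        ((groupHomology.inhomogeneousChains A).homologyπ i) (by simp))
      ((groupHomology.inhomogeneousChains A).homologyIsCokernel (i + 1) i hp))
  obtain ⟨y, hy⟩ := hex z h
  refine ⟨y, ?_⟩
  have h2 := (groupHomology.inhomogeneousChains A).toCycles_i (i + 1) i
  have h3 := congrArg (fun φ => φ.hom y) h2
  rw [groupHomology.inhomogeneousChains.d_def] at h3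
  rw [← hy]
  exact h3.symm

theorem iCycles_map' {H : Type u} [Group H] (A : Rep.{u} k G) (B : Rep.{u} k H) (j : G →* H)
    (φ : A ⟶ res j B) (i : ℕ) (z : groupHomology.cycles A i) :
    groupHomology.iCycles B i (groupHomology.cyclesMap j φ i z) =
      (groupHomology.chainsMap j φ).f i (groupHomology.iCycles A i z) := by
  have h1 := HomologicalComplex.cyclesMap_i (groupHomology.chainsMap j φ) i
  exact congrArg (fun f => f.hom z) h1

/-- a map is zero on homology if the image of each cycle is a boundary -/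
theorem map_zero_of_chain {H : Type u} [Group H] (A : Rep.{u} k G) (B : Rep.{u} k H)
    (j : G →* H) (φ : A ⟶ res j B) (i : ℕ)
    (h : ∀ z : groupHomology.cycles A i, ∃ y : (Fin (i + 1) → H) →₀ B,
      groupHomology.inhomogeneousChains.d B i y =
        (groupHomology.chainsMap j φ).f i (groupHomology.iCycles A i z)) :
    groupHomology.map j φ i = 0 := by
  refine ModuleCat.hom_ext (LinearMap.ext fun x => ?_)
  induction x using groupHomology_induction_on with
  | h z =>
    have h1 := groupHomology.π_map j φ i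
    have h2 := congrArg (fun f => f.hom z) h1
    refine h2.trans ?_
    obtain ⟨y, hy⟩ := h z
    refine pi_zero' B i _ y ?_
    rw [hy]
    exact (iCycles_map' A B j φ i z).symm

end general

section torsion

variable {N Γ N' Γ' U : Type} [Group N] [Group Γ] [Group N'] [Group Γ'] [CommGroup U]

/-- induced map on rational homology -/
noncomputable def hmap (f : N →* N') (i : ℕ) :
    groupHomology (Rep.trivial ℚ N ℚ) i →ₗ[ℚ] groupHomology (Rep.trivial ℚ N' ℚ) i :=
  (groupHomology.map (A := Rep.trivial ℚ N ℚ) (B := Rep.trivial ℚ N' ℚ) f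
    (𝟙 (Rep.trivial ℚ N ℚ)) i).hom

theorem iCycles_hmap (f : N →* N') (i : ℕ) (z : groupHomology.cycles (Rep.trivial ℚ N ℚ) i) :
    (groupHomology.iCycles (Rep.trivial ℚ N' ℚ) i
      (groupHomology.cyclesMap (A := Rep.trivial ℚ N ℚ) (B := Rep.trivial ℚ N' ℚ) f
        (𝟙 (Rep.trivial ℚ N ℚ)) i z) : (Fin i → N') →₀ ℚ) =
      Finsupp.mapDomain (fun g => f ∘ g)
        (groupHomology.iCycles (Rep.trivial ℚ N ℚ) i z : (Fin i → N) →₀ ℚ) := by
  refine (iCycles_map' _ _ f _ i z).trans ?_
  rw [groupHomology.chainsMap_f]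
  change Finsupp.mapRange.linearMap (LinearMap.id : ℚ →ₗ[ℚ] ℚ)
    (Finsupp.mapDomain (fun g => f ∘ g)
        (groupHomology.iCycles (Rep.trivial ℚ N ℚ) i z : (Fin i → N) →₀ ℚ)) = _
  rw [Finsupp.mapRange.linearMap_id]
  rfl

theorem hmap_pi (f : N →* N') (i : ℕ) (z : groupHomology.cycles (Rep.trivial ℚ N ℚ) i) :
    hmap f i ((groupHomology.π (Rep.trivial ℚ N ℚ) i).hom z) =
      (groupHomology.π (Rep.trivial ℚ N' ℚ) i).hom
        ((groupHomology.cyclesMap (A := Rep.trivial ℚ N ℚ) (B := Rep.trivial ℚ N' ℚ) f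
        (𝟙 (Rep.trivial ℚ N ℚ)) i).hom z) := by
  have h := groupHomology.π_map (A := Rep.trivial ℚ N ℚ) (B := Rep.trivial ℚ N' ℚ) f
    (𝟙 (Rep.trivial ℚ N ℚ)) i
  exact congrArg (fun φ => φ.hom z) h

/-- cycles of C(Γ; R_u) -/
def Cyc (R : Type) [CommRing R] (u : Γ →* R) : ∀ i : ℕ, ((Fin i → Γ) →₀ R) → Prop
  | 0, _ => True
  | n + 1, c => dch R u n c = 0

/-- cycles of C(N; ℚ) -/
def CycN (N : Type) [Group N] : ∀ i : ℕ, ((Fin i → N) →₀ ℚ) → Prop
  | 0, _ => True
  | n + 1, c => dN N n c = 0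

theorem cyc_iCycles (R : Type) [CommRing R] (u : Γ →* R) (i : ℕ)
    (z : groupHomology.cycles (chRep R u) i) :
    Cyc R u i (groupHomology.iCycles (chRep R u) i z) := by
  rcases i with _ | n
  · trivial
  · have h2 := (groupHomology.inhomogeneousChains (chRep R u)).iCycles_d (n + 1) n
    have h3 := congrArg (fun φ => φ.hom z) h2
    rw [groupHomology.inhomogeneousChains.d_def] at h3
    exact h3

theorem exists_cycle (i : ℕ) (c : (Fin i → N) →₀ ℚ) (hc : CycN N i c) :
    ∃ z : groupHomology.cycles (Rep.trivial ℚ N ℚ) i,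
      groupHomology.iCycles (Rep.trivial ℚ N ℚ) i z = c := by
  rcases i with _ | n
  · have h0 : (groupHomology.inhomogeneousChains (Rep.trivial ℚ N ℚ)).d 0
        ((ComplexShape.down ℕ).next 0) c = 0 := by
      rw [HomologicalComplex.shape _ _ _ (by simp [ComplexShape.down])]
      rfl
    exact ⟨groupHomology.cyclesMk (A := Rep.trivial ℚ N ℚ) 0 _ rfl c h0,
      groupHomology.iCycles_mk (A := Rep.trivial ℚ N ℚ) rfl c h0⟩
  · have h0 : (groupHomology.inhomogeneousChains (Rep.trivial ℚ N ℚ)).d (n + 1) n c = 0 := by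
      rw [groupHomology.inhomogeneousChains.d_def]
      exact hc
    exact ⟨groupHomology.cyclesMk (A := Rep.trivial ℚ N ℚ) (n + 1) n
      (ChainComplex.next_nat_succ n) c h0,
      groupHomology.iCycles_mk (A := Rep.trivial ℚ N ℚ) (ChainComplex.next_nat_succ n) c h0⟩

theorem Phi_cyc (ι : N →* Γ) (hι : Function.Injective ι) (deg : Γ →* U)
    (hker : ∀ g, deg g = 1 ↔ g ∈ ι.range) (s : U → Γ) (hs : ∀ m, deg (s m) = m) (i : ℕ)
    (c : (Fin i → Γ) →₀ MonoidAlgebra ℚ U) (hc : Cyc (MonoidAlgebra ℚ U) (uL deg) i c) :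
    CycN N i (Phi ι deg s i c) := by
  rcases i with _ | n
  · trivial
  · change dN N n _ = 0
    rw [← Phi_d ι hι deg hker s hs]
    have h : dch (MonoidAlgebra ℚ U) (uL deg) n c = 0 := hc
    rw [h, map_zero]

theorem homotopy_cyc (ι : N →* Γ) (deg : Γ →* U) (hker : ∀ g, deg g = 1 ↔ g ∈ ι.range)
    (s : U → Γ) (hs : ∀ m, deg (s m) = m) (i : ℕ)
    (c : (Fin i → Γ) →₀ MonoidAlgebra ℚ U) (hc : Cyc (MonoidAlgebra ℚ U) (uL deg) i c) :
    dch (MonoidAlgebra ℚ U) (uL deg) i (Ho deg s i c) =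
      incC ι (MonoidAlgebra ℚ U) i (Phi ι deg s i c) - c := by
  rcases i with _ | n
  · exact homotopy_zero ι deg hker s hs c
  · have h : dch (MonoidAlgebra ℚ U) (uL deg) n c = 0 := hc
    have h1 := homotopy_succ ι deg hker s hs n c
    rw [h, map_zero, add_zero] at h1
    exact h1

/-- chain map induced by a homomorphism -/
noncomputable def mj (j : Γ →* Γ') (R : Type) [AddCommGroup R] (n : ℕ) :
    ((Fin n → Γ) →₀ R) →+ ((Fin n → Γ') →₀ R) :=
  Finsupp.mapDomain.addMonoidHom fun g => j ∘ g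

theorem mj_single (j : Γ →* Γ') (R : Type) [AddCommGroup R] (n : ℕ) (g : Fin n → Γ) (r : R) :
    mj j R n (single g r) = single (j ∘ g) r := by
  simp [mj, Finsupp.mapDomain.addMonoidHom]

theorem mj_d (j : Γ →* Γ') (R : Type) [CommRing R] (u : Γ →* R) (u' : Γ' →* R)
    (hu : ∀ g, u' (j g) = u g) (n : ℕ) (c : (Fin (n + 1) → Γ) →₀ R) :
    mj j R n (dch R u n c) = dch R u' n (mj j R (n + 1) c) := by
  induction c using Finsupp.induction_linear with
  | zero => simp
  | add f g hf hg => simp only [map_add, hf, hg]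
  | single g q =>
    rw [mj_single, dch_single, dch_single, map_add, mj_single, map_sum]
    have h1 : u' ((j ∘ g) 0)⁻¹ = u (g 0)⁻¹ := by
      rw [Function.comp_apply, ← map_inv, hu]
    rw [h1]
    congr 1
    refine Finset.sum_congr rfl fun i _ => ?_
    rw [← comp_contract]
    rcases Nat.even_or_odd ((i : ℕ) + 1) with h | h
    · rw [h.neg_one_pow, one_smul, one_smul, mj_single]
    · rw [h.neg_one_pow, neg_one_smul, neg_one_smul, map_neg, mj_single]

theorem mj_smul (j : Γ →* Γ') (R : Type) [CommRing R] (n : ℕ) (r : R) (c : (Fin n → Γ) →₀ R) :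
    mj j R n (r • c) = r • mj j R n c := by
  exact Finsupp.mapDomain_smul r c

theorem mj_incC (ι : N →* Γ) (ι' : N' →* Γ') (j : Γ →* Γ') (jN : N →* N')
    (hj : ∀ x, ι' (jN x) = j (ι x)) (R : Type) [CommRing R] [Algebra ℚ R] (n : ℕ)
    (c : (Fin n → N) →₀ ℚ) :
    mj j R n (incC ι R n c) = incC ι' R n (Finsupp.mapDomain (fun g => jN ∘ g) c) := by
  induction c using Finsupp.induction_linear with
  | zero => simp
  | add f g hf hg => simp only [map_add, hf, hg, Finsupp.mapDomain_add]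
  | single g q =>
    rw [incC_single, mj_single, Finsupp.mapDomain_single, incC_single]
    congr 1
    funext i
    exact (hj (g i)).symm

theorem mj_alg (j : Γ →* Γ') {Λ R : Type} [CommRing Λ] [CommRing R] [Algebra Λ R] (n : ℕ)
    (c : (Fin n → Γ) →₀ Λ) :
    mj j R n (Finsupp.mapRange.addMonoidHom (algebraMap Λ R : Λ →+ R) c) =
      Finsupp.mapRange.addMonoidHom (algebraMap Λ R : Λ →+ R) (mj j Λ n c) := by
  induction c using Finsupp.induction_linear with
  | zero => simp
  | add f g hf hg => simp only [map_add, hf, hg]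
  | single g q =>
    simp only [Finsupp.mapRange.addMonoidHom_apply, Finsupp.mapRange_single, mj_single]

theorem alg_smul {Λ R X : Type} [CommRing Λ] [CommRing R] [Algebra Λ R] (p : Λ) (c : X →₀ Λ) :
    Finsupp.mapRange.addMonoidHom (algebraMap Λ R : Λ →+ R) (p • c) =
      (algebraMap Λ R p) • Finsupp.mapRange.addMonoidHom (algebraMap Λ R : Λ →+ R) c := by
  ext x
  simp [Algebra.smul_def]

/-- THE ZERO MAP THEOREM, chain level. -/
theorem chain_zero (ι : N →* Γ) (hι : Function.Injective ι) (ι' : N' →* Γ')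
    (hι' : Function.Injective ι') (deg : Γ →* U) (deg' : Γ' →* U)
    (hker : ∀ g, deg g = 1 ↔ g ∈ ι.range) (hker' : ∀ g, deg' g = 1 ↔ g ∈ ι'.range)
    (j : Γ →* Γ') (hj : ∀ g, deg' (j g) = deg g) (jN : N →* N')
    (hjN : ∀ x, ι' (jN x) = j (ι x)) (s : U → Γ) (hs : ∀ m, deg (s m) = m)
    (c : U → (N' →* N')) (hc : ∀ m x, ι' (c m x) = (j (s m))⁻¹ * ι' x * j (s m))
    (R : Type) [CommRing R] [Algebra (MonoidAlgebra ℚ U) R] (M : Submonoid (MonoidAlgebra ℚ U))
    [IsLocalization M R] (hM : M ≤ nonZeroDivisors (MonoidAlgebra ℚ U)) (i : ℕ)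
    (hyp : ∀ x : groupHomology (Rep.trivial ℚ N ℚ) i, ∃ p ∈ M,
      (p.coeff.sum fun m q => q • hm (c m) i (hmap jN i x)) = 0)
    (z : (Fin i → Γ) →₀ R)
    (hz : Cyc R ((algebraMap (MonoidAlgebra ℚ U) R : MonoidAlgebra ℚ U →* R).comp (uL deg)) i z) :
    ∃ y, dch R ((algebraMap (MonoidAlgebra ℚ U) R : MonoidAlgebra ℚ U →* R).comp (uL deg')) i y =
      mj j R i z := by
  have hinj : Function.Injective (algebraMap (MonoidAlgebra ℚ U) R) :=
    IsLocalization.injective R hM
  have hmr : ∀ X : Type, Function.Injective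
      (Finsupp.mapRange.addMonoidHom (algebraMap (MonoidAlgebra ℚ U) R : MonoidAlgebra ℚ U →+ R) :
        (X →₀ MonoidAlgebra ℚ U) → (X →₀ R)) := fun X =>
    Finsupp.mapRange_injective (algebraMap (MonoidAlgebra ℚ U) R) (map_zero _) hinj
  obtain ⟨p0, hp0, e, he⟩ := clear_den (Λ := MonoidAlgebra ℚ U) (R := R) (X := Fin i → Γ) M z
  have hcyc : Cyc (MonoidAlgebra ℚ U) (uL deg) i e := by
    rcases i with _ | n
    · trivial
    · change dch (MonoidAlgebra ℚ U) (uL deg) n e = 0
      apply hmr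
      rw [← dch_map, he, dch_smul, map_zero]
      have : dch R ((algebraMap (MonoidAlgebra ℚ U) R : MonoidAlgebra ℚ U →* R).comp
        (uL deg)) n z = 0 := hz
      rw [this, smul_zero]
  have h1 := homotopy_cyc ι deg hker s hs i e hcyc
  have h2 := Phi_cyc ι hι deg hker s hs i e hcyc
  set f := Phi ι deg s i e with hf
  obtain ⟨zc, hzc⟩ := exists_cycle i f h2
  obtain ⟨p1, hp1, h3⟩ := hyp ((groupHomology.π (Rep.trivial ℚ N ℚ) i).hom zc)
  set f' : (Fin i → N') →₀ ℚ := Finsupp.mapDomain (fun g => jN ∘ g) f with hf'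
  set zc' := (groupHomology.cyclesMap (A := Rep.trivial ℚ N ℚ) (B := Rep.trivial ℚ N' ℚ) jN
        (𝟙 (Rep.trivial ℚ N ℚ)) i).hom zc with hzc'
  have hzcf : groupHomology.iCycles (Rep.trivial ℚ N' ℚ) i zc' = f' := by
    rw [hf', ← hzc]
    exact iCycles_hmap jN i zc
  rw [hmap_pi] at h3
  have h4 : groupHomology.π (Rep.trivial ℚ N' ℚ) i
      (p1.coeff.sum fun m q => q • zm (c m) i zc') = 0 := by
    rw [← h3, Finsupp.sum, Finsupp.sum]
    refine (map_sum (groupHomology.π (Rep.trivial ℚ N' ℚ) i).hom _ _).trans ?_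
    refine Finset.sum_congr rfl fun m _ => ?_
    rw [map_smul, hm_pi]
  obtain ⟨y, hy⟩ := bd_of_pi_zero _ i _ h4
  have hy' : dN N' i y = p1.coeff.sum fun m q => q • Finsupp.mapDomain (fun g => c m ∘ g) f' := by
    refine hy.trans ?_
    rw [Finsupp.sum, Finsupp.sum]
    refine (map_sum (groupHomology.iCycles (Rep.trivial ℚ N' ℚ) i).hom _ _).trans ?_
    refine Finset.sum_congr rfl fun m _ => ?_
    rw [map_smul]
    refine congrArg (fun t => p1.coeff m • t) ?_
    refine (iCycles_map (c m) i zc').trans ?_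
    rw [hzcf]
  have hs' : ∀ m, deg' (j (s m)) = m := fun m => by rw [hj, hs]
  have hcycf : Cyc (MonoidAlgebra ℚ U) (uL deg') i (p1 • incC ι' (MonoidAlgebra ℚ U) i f') := by
    rcases i with _ | n
    · trivial
    · change dch (MonoidAlgebra ℚ U) (uL deg') n (p1 • incC ι' (MonoidAlgebra ℚ U) (n + 1) f') = 0
      rw [dch_smul, ← mj_incC ι ι' j jN hjN, ← mj_d j _ (uL deg) (uL deg') (by
        intro g; rw [uL_apply, uL_apply, hj]), ← incC_d ι _ (uL deg) (by
          intro x
          rw [uL_apply, (hker _).2 ⟨x, rfl⟩]; rfl)]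
      have : dN N n f = 0 := h2
      rw [this, map_zero, map_zero, smul_zero]
  have h5 := homotopy_cyc ι' deg' hker' (fun m => j (s m)) hs' i _ hcycf
  rw [Phi_inc ι' hι' deg' hker' (fun m => j (s m)) c hc, ← hy', incC_d ι' _ (uL deg') (by
          intro x
          rw [uL_apply, (hker' _).2 ⟨x, rfl⟩]; rfl)] at h5
  -- p1 • inc f' is a boundary
  set w := incC ι' (MonoidAlgebra ℚ U) (i + 1) y -
    Ho deg' (fun m => j (s m)) i (p1 • incC ι' (MonoidAlgebra ℚ U) i f') with hw
  have h6 : dch (MonoidAlgebra ℚ U) (uL deg') i w = p1 • incC ι' (MonoidAlgebra ℚ U) i f' := by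
    rw [hw, map_sub, h5]; abel
  have h7 : p1 • mj j (MonoidAlgebra ℚ U) i e =
      dch (MonoidAlgebra ℚ U) (uL deg') i (w - p1 • mj j (MonoidAlgebra ℚ U) (i + 1)
        (Ho deg s i e)) := by
    rw [map_sub, h6, dch_smul, ← mj_d j _ (uL deg) (uL deg') (by
        intro g; rw [uL_apply, uL_apply, hj]), h1, map_sub, mj_incC ι ι' j jN hjN, smul_sub]
    abel
  have hu : IsUnit (algebraMap (MonoidAlgebra ℚ U) R (p1 * p0)) :=
    IsLocalization.map_units R (⟨p1 * p0, M.mul_mem hp1 hp0⟩ : M)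
  obtain ⟨v, hv⟩ := hu.exists_left_inv
  refine ⟨v • Finsupp.mapRange.addMonoidHom (algebraMap (MonoidAlgebra ℚ U) R :
    MonoidAlgebra ℚ U →+ R) (w - p1 • mj j (MonoidAlgebra ℚ U) (i + 1) (Ho deg s i e)), ?_⟩
  rw [dch_smul, dch_map, ← h7, alg_smul, ← mj_alg, he, mj_smul, smul_smul, smul_smul]
  have : v * (algebraMap (MonoidAlgebra ℚ U) R) p1 * (algebraMap (MonoidAlgebra ℚ U) R) p0 = 1 := by
    rw [mul_assoc, ← map_mul, hv]
  rw [this, one_smul]

end torsion

end Pool.Agent.TOR.H72
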